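import Pool.Agent.Y5.V.Nogo

/-! Assembly. -/

open Set Filter Topology
open scoped ComplexConjugate

set_option autoImplicit false

namespace Pool.Agent.Y5.V

open Pool.Agent.Y6.M (Z3 C3 Coef dt kc cj nsq len adv leray IsField energy)
open Pool.Agent.Y5.D (pair bil vec)
open Pool.Agent.Y6.K (Em Ac cvf Chain)

open Classical in
lemma eo_term {V : Coef} {M : ℝ} (hM : ∀ k j, len k ^ 3 * ‖V k j‖ ≤ M) (k : Z3) :
    (if lac (nsq k) then 0 else (nsq k : ℝ) ^ (5 / 6 : ℝ) * sq (V k)) ≤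
      3 * M ^ 2 * (if k = 0 then (0 : ℝ) else (len k ^ 4)⁻¹) := by
  by_cases hk : k = 0
  · subst hk
    have h0 : (nsq (0 : Z3) : ℝ) = 0 := by simp [nsq]
    rw [h0, Real.zero_rpow (by norm_num)]
    simp
  · rw [if_neg hk]
    have hl := len_one hk
    have hl0 : 0 < len k := by linarith
    have hM0 : 0 ≤ M := le_trans (by positivity) (hM k 0)
    by_cases hlac : lac (nsq k)
    · rw [if_pos hlac]; positivity
    rw [if_neg hlac]
    have h1 : (nsq k : ℝ) ^ (5 / 6 : ℝ) ≤ len k ^ 2 := by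
      rw [len_sq']
      have h2 : (1 : ℝ) ≤ (nsq k : ℝ) := by exact_mod_cast nsq_pos hk
      calc (nsq k : ℝ) ^ (5 / 6 : ℝ) ≤ (nsq k : ℝ) ^ (1 : ℝ) :=
            Real.rpow_le_rpow_of_exponent_le h2 (by norm_num)
        _ = _ := Real.rpow_one _
    have h3 : sq (V k) ≤ 3 * (M / len k ^ 3) ^ 2 := by
      apply sq_le
      intro j
      rw [le_div_iff₀ (by positivity), mul_comm]
      exact hM k j
    calc (nsq k : ℝ) ^ (5 / 6 : ℝ) * sq (V k) ≤ len k ^ 2 * (3 * (M / len k ^ 3) ^ 2) := by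
          apply mul_le_mul h1 h3 (sq_nn _) (by positivity)
      _ = 3 * M ^ 2 * (len k ^ 4)⁻¹ := by field_simp

open Classical in
lemma eo_nn (V : Coef) (k : Z3) :
    0 ≤ (if lac (nsq k) then (0 : ℝ) else (nsq k : ℝ) ^ (5 / 6 : ℝ) * sq (V k)) := by
  split_ifs
  · exact le_rfl
  · have : (0 : ℝ) ≤ (nsq k : ℝ) := by exact_mod_cast nsq_nn k
    have := sq_nn (V k)
    positivity

lemma eo_nonneg (V : Coef) : 0 ≤ eo V := tsum_nonneg fun k => eo_nn V k

open Classical in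
lemma eo_summ (hs : S_SUM) {V : Coef} {M : ℝ} (hM : ∀ k j, len k ^ 3 * ‖V k j‖ ≤ M) :
    Summable fun k => (if lac (nsq k) then (0 : ℝ) else (nsq k : ℝ) ^ (5 / 6 : ℝ) * sq (V k)) :=
  Summable.of_nonneg_of_le (fun k => eo_nn V k) (fun k => eo_term hM k) (Summable.mul_left _ hs)

lemma eo_le (hs : S_SUM) {V : Coef} {M : ℝ} (hM : ∀ k j, len k ^ 3 * ‖V k j‖ ≤ M) :
    eo V ≤ 3 * M ^ 2 * ∑' k : Z3, (if k = 0 then (0 : ℝ) else (len k ^ 4)⁻¹) := by
  unfold eo
  rw [← tsum_mul_left]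
  exact (eo_summ hs hM).tsum_le_tsum (fun k => eo_term hM k) (Summable.mul_left _ hs)

theorem t_NOGO_of (hs : S_SUM) (hSYM : S_SYM) (hUNQ : S_UNQ) (hENR : S_ENR) (hLEV : S_LEV)
    (hX1 : S_XN1) (hX2 : S_XN2) (hX3 : S_XN3) (hX4 : S_XN4) (hKP : S_KP) (hDAT : S_DATV) :
    S_NOGO := by
  have hCJ := Pool.Agent.Y809.EK.t_CJ1
  have hCJ2 := Pool.Agent.Y978.EK.t_CJ2 hCJ
  have hCh : Chain Ac := hCJ2.2.2.1
  obtain ⟨C, hC, hX⟩ := hX2 hLEV hX3 hX4
  obtain ⟨κ₀, T₀, hκ, hT0, hK⟩ := hKP Ac hCh (fun n => C * Ac n ^ (1 / 6 : ℝ))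
    (fun n => by have := Ac_pos hCh n; positivity) (summ_c hCh C hC)
  refine ⟨κ₀, T₀, hκ, hT0, ?_⟩
  intro φ T V hφ hT hV h0
  have hd := hφ.dmp
  have hSy := hSYM hUNQ φ T V hd hV (by rw [h0]; exact hDAT.2.1)
  have hen := hENR _ T V hd hV
  have hE0 : energy (V 0) = 1 := by rw [h0]; exact hDAT.2.2.1
  have hnn : ∀ t ∈ Ico 0 T, 0 ≤ ∑' k, φ (nsq k) * sq (V t k) := fun t _ =>
    tsum_nonneg fun k => mul_nonneg (hφ.nonneg _) (sq_nn _)
  have hle : ∀ t ∈ Ico 0 T, energy (V t) ≤ 1 := by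
    have hanti : AntitoneOn (fun s => energy (V s)) (Ico 0 T) := by
      apply antitoneOn_of_hasDerivWithinAt_nonpos (convex_Ico 0 T)
        (fun t ht => (hen t ht).2.2.continuousWithinAt)
        (f' := fun t => -(2 * ∑' k, φ (nsq k) * sq (V t k)))
      · intro t ht
        rw [interior_Ico] at ht ⊢
        exact (hen t ⟨ht.1.le, ht.2⟩).2.2.mono Ioo_subset_Ico_self
      · intro t ht
        rw [interior_Ico] at ht
        have := hnn t ⟨ht.1.le, ht.2⟩
        linarith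
    intro t ht
    rw [← hE0]
    exact hanti ⟨le_rfl, hT⟩ ht ht.1
  have hreg : ∀ q : ℕ, ∀ t ∈ Ico 0 T, ∃ M, ∀ k j, len k ^ q * ‖V t k j‖ ≤ M := by
    intro q t ht
    obtain ⟨M, hM⟩ := hV.reg q t ht.2
    exact ⟨M, fun k j => hM t ⟨ht.1, le_rfl⟩ k j⟩
  refine hK κ₀ T (fun n t => xc (V t) n)
    (fun n t => bil (wOf (V t)) (wOf (V t)) (Em n) - cvf Ac (xc (V t)) n)
    (fun t => energy (V t)) (fun t => √(eo (V t))) le_rfl hT ?_ ?_ ?_ ?_ ?_ ?_ ?_ ?_ ?_
  · intro n t ht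
    have h1 := hX1 hLEV φ κ₀ T V hκ hφ hV hSy n t ht
    have h2 : cvf Ac (fun m => xc (V t) m) n +
        (bil (wOf (V t)) (wOf (V t)) (Em n) - cvf Ac (xc (V t)) n) =
        bil (wOf (V t)) (wOf (V t)) (Em n) := by ring
    rw [h2]
    exact h1
  · intro n t ht
    exact hX (V t) (hV.field t ht) (hSy t ht) (hle t ht) n
  · intro t ht
    refine ⟨Real.sqrt_nonneg _, ?_, hle t ht⟩
    exact tsum_nonneg fun k => sq_nn _
  · intro T' hT'
    obtain ⟨M, hM⟩ := hV.reg 3 T' hT'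
    refine ⟨√(3 * M ^ 2 * ∑' k : Z3, (if k = 0 then (0 : ℝ) else (len k ^ 4)⁻¹)), ?_⟩
    intro t ht
    exact Real.sqrt_le_sqrt (eo_le hs (hM t ht))
  · intro t ht
    refine ⟨_, (hen t ht).2.2, ?_⟩
    rw [Real.sq_sqrt (eo_nonneg _)]
    obtain ⟨M, hM⟩ := hreg 3 t ht
    have h1 : κ₀ * eo (V t) ≤ ∑' k, φ (nsq k) * sq (V t k) := by
      unfold eo
      rw [← tsum_mul_left]
      refine Summable.tsum_le_tsum (fun k => ?_) (Summable.mul_left _ (eo_summ hs hM))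
        (hen t ht).2.1
      by_cases hlac : lac (nsq k)
      · rw [if_pos hlac, mul_zero]
        exact mul_nonneg (hφ.nonneg _) (sq_nn _)
      · rw [if_neg hlac, ← mul_assoc]
        apply mul_le_mul_of_nonneg_right _ (sq_nn _)
        by_cases hk : k = 0
        · subst hk
          have h0 : (nsq (0 : Z3) : ℝ) = 0 := by simp [nsq]
          rw [h0, Real.zero_rpow (by norm_num), mul_zero]
          exact hφ.nonneg _
        · exact hφ.low _ (by have := nsq_pos hk; omega) hlac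
    linarith
  · intro t ht
    have h1 : ∀ N : ℕ, ∑ n ∈ Finset.range N, xc (V t) n ^ 2 ≤ 1 := by
      intro N
      have h2 : ∑ n ∈ Finset.range N, xc (V t) n ^ 2 =
          ∑ k ∈ (Finset.range N).biUnion (fun n => Pool.Agent.Y302.Trunc.Lev 1 n), sq (V t k) := by
        rw [Finset.sum_biUnion]
        · refine Finset.sum_congr rfl fun n _ => ?_
          rw [lev_energy hLEV (hV.field t ht) (hSy t ht)]
        · intro a _ b _ hab
          exact lev_disj hab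
      rw [h2]
      refine le_trans ?_ (hle t ht)
      exact (hen t ht).1.sum_le_tsum _ (fun k _ => sq_nn _)
    exact ⟨summable_of_sum_range_le (fun n => sq_nonneg _) h1,
      Real.tsum_le_of_sum_range_le (fun n => sq_nonneg _) h1⟩
  · intro q T' hT'
    obtain ⟨M, hM⟩ := hV.reg q T' hT'
    refine ⟨√(72 * 100 ^ q * M ^ 2), ?_⟩
    intro t ht n
    have htT : t ∈ Ico 0 T := ⟨ht.1, lt_of_le_of_lt ht.2 hT'⟩
    have hA := Ac_pos hCh n
    apply Real.le_sqrt_of_sq_le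
    rw [mul_pow, sq_abs, ← lev_energy hLEV (hV.field t htT) (hSy t htT), Finset.mul_sum]
    have hc := (hCJ.2.1 n).1
    have h1 : ∀ k ∈ Pool.Agent.Y302.Trunc.Lev 1 n, (Ac n ^ q) ^ 2 * sq (V t k) ≤
        100 ^ q * (3 * M ^ 2) := by
      intro k hk
      have e1 := (hCJ.1 n k).1 hk
      have e2 := (hCJ2.2.2.2 n).2
      rw [← e1, len_vec, ← len_sq'] at e2
      have e3 : (Ac n ^ q) ^ 2 ≤ 100 ^ q * (len k ^ q) ^ 2 := by
        calc (Ac n ^ q) ^ 2 = (Ac n ^ 2) ^ q := by ring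
          _ ≤ (100 * len k ^ 2) ^ q := pow_le_pow_left₀ (by positivity) e2 q
          _ = 100 ^ q * (len k ^ q) ^ 2 := by ring
      have e4 : (len k ^ q) ^ 2 * sq (V t k) ≤ 3 * M ^ 2 := by
        have : (len k ^ q) ^ 2 * sq (V t k) = ∑ j, (len k ^ q * ‖V t k j‖) ^ 2 := by
          unfold sq
          rw [Finset.mul_sum]
          refine Finset.sum_congr rfl fun j _ => ?_
          ring
        rw [this, Fin.sum_univ_three]
        have hln := pow_nonneg (len_nn k) q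
        have g := fun j => pow_le_pow_left₀ (mul_nonneg hln (norm_nonneg (V t k j)))
          (hM t ht k j) 2
        have := g 0
        have := g 1
        have := g 2
        linarith
      calc (Ac n ^ q) ^ 2 * sq (V t k) ≤ 100 ^ q * (len k ^ q) ^ 2 * sq (V t k) :=
            mul_le_mul_of_nonneg_right e3 (sq_nn _)
        _ = 100 ^ q * ((len k ^ q) ^ 2 * sq (V t k)) := by ring
        _ ≤ 100 ^ q * (3 * M ^ 2) := by gcongr
    refine (Finset.sum_le_card_nsmul _ _ _ h1).trans (le_of_eq ?_)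
    rw [hc, nsmul_eq_mul]
    push_cast
    ring
  · show xc (V 0) 0 = 1
    rw [h0]
    exact hDAT.2.2.2.1
  · intro n
    show xc (V 0) (n + 1) = 0
    rw [h0]
    exact hDAT.2.2.2.2 n

theorem t_MAINV_of (hN : S_NOGO) (hM : S_MAX) (hL : S_LOC) (hU : S_UNQ) (hG : S_GLU)
    (hE : S_ENR) (hS : S_SCL) (hD : S_DATV) : S_MAINV := by
  obtain ⟨ν₀, T₀, hν, hT, h⟩ := hN
  refine ⟨ν₀, T₀, hν, hT, fun a φ ha hφ => ?_⟩
  have hF : IsField (fun k j => (a : ℂ) * dat k j) := by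
    obtain ⟨h0, hr, hdv, hsm⟩ := hD.1
    refine ⟨?_, ?_, ?_, ?_⟩
    · funext j
      show (a : ℂ) * dat 0 j = 0
      rw [h0]
      simp
    · intro k j
      show (a : ℂ) * dat (-k) j = conj ((a : ℂ) * dat k j)
      rw [hr, map_mul, Complex.conj_ofReal]
    · intro k
      have := hdv k
      unfold dt at this ⊢
      calc ∑ j, kc k j * ((a : ℂ) * dat k j) = (a : ℂ) * ∑ j, kc k j * dat k j := by
            rw [Finset.mul_sum]
            exact Finset.sum_congr rfl fun j _ => by ring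
        _ = 0 := by rw [this, mul_zero]
    · intro q
      obtain ⟨M, hM⟩ := hsm q
      refine ⟨a * M, fun k j => ?_⟩
      rw [norm_mul, Complex.norm_real, Real.norm_eq_abs, abs_of_pos ha]
      calc len k ^ q * (a * ‖dat k j‖) = a * (len k ^ q * ‖dat k j‖) := by ring
        _ ≤ a * M := by gcongr; exact hM k j
  have hng : ∀ (T' : ℝ) (W : ℝ → Coef), 0 < T' → Sol (fun k => φ (nsq k)) T' W →
      W 0 = (fun k j => (a : ℂ) * dat k j) → T' ≤ T₀ / a := by
    intro T' W hT' hW hW0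
    have hai : 0 < a⁻¹ := inv_pos.2 ha
    have h1 := hS _ a⁻¹ T' W hai hW
    have h2 : Lac ν₀ (fun N => a⁻¹ * φ N) := by
      refine ⟨fun N => mul_nonneg hai.le (hφ.nonneg N), fun N hN => ?_, fun N hN hl => ?_, ?_⟩
      · rw [hφ.zero N hN, mul_zero]
      · have h3 := hφ.low N hN hl
        calc ν₀ * (N : ℝ) ^ (5 / 6 : ℝ) = a⁻¹ * (ν₀ * a * (N : ℝ) ^ (5 / 6 : ℝ)) := by
              field_simp
          _ ≤ a⁻¹ * φ N := by gcongr
      · obtain ⟨C, p, hC⟩ := hφ.poly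
        refine ⟨a⁻¹ * C, p, fun N hN => ?_⟩
        rw [mul_assoc]
        exact mul_le_mul_of_nonneg_left (hC N hN) hai.le
    have h4 := h (fun N => a⁻¹ * φ N) (T' / a⁻¹) _ h2 (by positivity) h1 (by
      funext k j
      show ((a⁻¹ : ℝ) : ℂ) * W (a⁻¹ * 0) k j = dat k j
      rw [mul_zero, hW0]
      show ((a⁻¹ : ℝ) : ℂ) * ((a : ℂ) * dat k j) = dat k j
      rw [← mul_assoc, ← Complex.ofReal_mul, inv_mul_cancel₀ ha.ne', Complex.ofReal_one, one_mul])
    rw [le_div_iff₀ ha]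
    rwa [div_inv_eq_mul] at h4
  obtain ⟨T, V, hT1, hT2, hV, hV0, hmax, hbl⟩ := hM hL hU hG _ _ (T₀ / a) hφ.dmp hF hng
  refine ⟨T, V, hT1, hT2, hV, ?_, ?_, ?_, hbl⟩
  · intro k j
    rw [hV0]
  · intro T' W hT' hW hW0
    exact hmax T' W hT' hW (hW0.trans hV0)
  · intro t ht
    exact (hE _ T V hφ.dmp hV t ht).2.2

end Pool.Agent.Y5.V
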