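import Pool.Agent.Y5.V.Stm

/-!
Second stage: the damping on the lacunary set need not vanish, it may be of order `(-Δ)^(1/4)`.
-/

open Set Filter Topology
open scoped ComplexConjugate

set_option autoImplicit false

namespace Pool.Agent.Y5.V

open Pool.Agent.Y6.M (Z3 C3 Coef dt kc cj nsq len adv leray IsField energy)
open Pool.Agent.Y5.D (pair bil vec)
open Pool.Agent.Y6.K (Em Ac cvf Chain)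

/-- The damping: `φ N ≤ ε N^(1/4)` on the lacunary set, and `φ N ≥ ν N^(5/6)` elsewhere. -/
structure Lac2 (ν ε : ℝ) (φ : ℤ → ℝ) : Prop where
  nonneg : ∀ N, 0 ≤ φ N
  small : ∀ N, lac N → φ N ≤ ε * (N : ℝ) ^ (1 / 4 : ℝ)
  low : ∀ N, 0 < N → ¬ lac N → ν * (N : ℝ) ^ (5 / 6 : ℝ) ≤ φ N
  poly : ∃ (C : ℝ) (p : ℕ), ∀ N, 0 ≤ N → φ N ≤ C * (1 + (N : ℝ)) ^ p

/-- The equations of the amplitudes of the chain. -/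
def S_XNG : Prop := S_LEV → ∀ (φ : ℤ → ℝ) (T : ℝ) (V : ℝ → Coef),
  Sol (fun k => φ (nsq k)) T V → (∀ t ∈ Ico 0 T, Sy (V t)) → ∀ n, ∀ t ∈ Ico 0 T,
  HasDerivWithinAt (fun s => xc (V s) n) (bil (wOf (V t)) (wOf (V t)) (Em n) -
    φ (Pool.Agent.Y302.Trunc.rho 1 n) * xc (V t) n) (Ico 0 T) t

/-- The chain with damping `g n`. The function `en` is the energy, `E ^ 2` bounds the
dissipation. -/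
def S_KPG : Prop := ∀ A : ℕ → ℝ, Chain A → ∀ (c : ℕ → ℝ), (∀ n, 0 ≤ c n) →
  Summable (fun n => (9 / 10 : ℝ) ^ n * c n) → ∃ κ₀ T₀ ε₀ : ℝ, 0 < κ₀ ∧ 0 < T₀ ∧ 0 < ε₀ ∧
  ∀ (κ T : ℝ) (g : ℕ → ℝ) (x f : ℕ → ℝ → ℝ) (en E : ℝ → ℝ), κ₀ ≤ κ → 0 < T →
    (∀ n, 0 ≤ g n ∧ g n ≤ ε₀ * √(A n)) →
    (∀ n, ∀ t ∈ Ico 0 T,
      HasDerivWithinAt (x n) (cvf A (fun m => x m t) n - g n * x n t + f n t) (Ico 0 T) t) →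
    (∀ n, ∀ t ∈ Ico 0 T, |f n t| ≤ c n * E t) →
    (∀ t ∈ Ico 0 T, 0 ≤ E t ∧ 0 ≤ en t ∧ en t ≤ 1) → (∀ T' < T, ∃ M, ∀ t ∈ Icc 0 T', E t ≤ M) →
    (∀ t ∈ Ico 0 T, ∃ e', HasDerivWithinAt en e' (Ico 0 T) t ∧ e' ≤ -(2 * κ * E t ^ 2)) →
    (∀ t ∈ Ico 0 T, Summable (fun n => x n t ^ 2) ∧ ∑' n, x n t ^ 2 ≤ 1) →
    (∀ (k : ℕ), ∀ T' < T, ∃ M, ∀ t ∈ Icc 0 T', ∀ n, A n ^ k * |x n t| ≤ M) →
    x 0 0 = 1 → (∀ n, x (n + 1) 0 = 0) → T ≤ T₀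

/-- Smooth solutions do not exist for a long time. -/
def S_NOGO2 : Prop := ∃ ν₀ ε₀ T₀ : ℝ, 0 < ν₀ ∧ 0 < ε₀ ∧ 0 < T₀ ∧
  ∀ (φ : ℤ → ℝ) (T : ℝ) (V : ℝ → Coef),
  Lac2 ν₀ ε₀ φ → 0 < T → Sol (fun k => φ (nsq k)) T V → V 0 = dat → T ≤ T₀

/-- The main theorem. -/
def S_MAINW : Prop := ∃ ν₀ ε₀ T₀ : ℝ, 0 < ν₀ ∧ 0 < ε₀ ∧ 0 < T₀ ∧ ∀ (a : ℝ) (φ : ℤ → ℝ),
  0 < a → Lac2 (ν₀ * a) (ε₀ * a) φ → ∃ (T : ℝ) (V : ℝ → Coef), 0 < T ∧ T ≤ T₀ / a ∧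
    Sol (fun k => φ (nsq k)) T V ∧ (∀ k j, V 0 k j = (a : ℂ) * dat k j) ∧
    -- uniqueness, and `T` is the maximal time of existence
    (∀ (T' : ℝ) (W : ℝ → Coef), 0 < T' → Sol (fun k => φ (nsq k)) T' W → W 0 = V 0 →
      T' ≤ T ∧ ∀ t ∈ Ico 0 T', W t = V t) ∧
    -- the energy identity
    (∀ t ∈ Ico 0 T, HasDerivWithinAt (fun s => energy (V s))
      (-(2 * ∑' k, φ (nsq k) * sq (V t k))) (Ico 0 T) t) ∧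
    -- blow-up
    ∀ M : ℝ, ∃ t ∈ Ico 0 T, M < hE 3 (V t)

end Pool.Agent.Y5.V
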