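import Pool.Agent.Y5.V.Asm
import Pool.Agent.Y5.V.Stm2

/-! Assembly of the second stage. -/

open Set Filter Topology
open scoped ComplexConjugate

set_option autoImplicit false

namespace Pool.Agent.Y5.V

open Pool.Agent.Y6.M (Z3 C3 Coef dt kc cj nsq len adv leray IsField energy)
open Pool.Agent.Y5.D (pair bil vec)
open Pool.Agent.Y6.K (Em Ac cvf Chain)

lemma Lac2.dmp {ν ε : ℝ} {φ : ℤ → ℝ} (h : Lac2 ν ε φ) : Dmp (fun k => φ (nsq k)) := by
  refine ⟨fun k => h.nonneg _, fun k => by rw [nsq_neg], ?_⟩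
  obtain ⟨C, p, hC⟩ := h.poly
  refine ⟨|C|, 2 * p, fun k => ?_⟩
  have h1 := hC (nsq k) (nsq_nn k)
  have h2 : C * (1 + (nsq k : ℝ)) ^ p ≤ |C| * (1 + (nsq k : ℝ)) ^ p := by
    have : (0 : ℝ) ≤ (nsq k : ℝ) := by exact_mod_cast nsq_nn k
    have := le_abs_self C
    gcongr
  refine h1.trans (h2.trans ?_)
  rw [pow_mul]
  have h3 := len_sq' k
  have h4 := len_nn k
  have h5 : 1 + (nsq k : ℝ) ≤ (1 + len k) ^ 2 := by nlinarith
  have h6 : (0 : ℝ) ≤ 1 + (nsq k : ℝ) := by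
    have : (0 : ℝ) ≤ (nsq k : ℝ) := by exact_mod_cast nsq_nn k
    linarith
  gcongr

lemma rho_lac (hLEV : S_LEV) (hD : S_DATV) (n : ℕ) :
    lac (Pool.Agent.Y302.Trunc.rho 1 n) ∧
      ((Pool.Agent.Y302.Trunc.rho 1 n : ℤ) : ℝ) ≤ 100 * Ac n ^ 2 ∧
      (0 : ℝ) ≤ ((Pool.Agent.Y302.Trunc.rho 1 n : ℤ) : ℝ) := by
  have hCJ := Pool.Agent.Y809.EK.t_CJ1
  have hCJ2 := Pool.Agent.Y978.EK.t_CJ2 hCJ
  have hc := (hCJ.2.1 n).1
  have hne : (Pool.Agent.Y302.Trunc.Lev 1 n).Nonempty := by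
    rw [← Finset.card_pos, hc]; norm_num
  obtain ⟨k, hk⟩ := hne
  have e1 := (hCJ.1 n k).1 hk
  rw [len_vec] at e1
  have e2 : nsq k = Pool.Agent.Y302.Trunc.rho 1 n := by exact_mod_cast e1
  have h6 := (hLEV dat hD.1 hD.2.1).2.2.2.2.2 k
  refine ⟨?_, (hCJ2.2.2.2 n).1, ?_⟩
  · rw [← e2]
    exact h6.2 ⟨n, hk⟩
  · rw [← e2]
    exact_mod_cast nsq_nn k

theorem t_NOGO2_of (hs : S_SUM) (hSYM : S_SYM) (hUNQ : S_UNQ) (hENR : S_ENR) (hLEV : S_LEV)
    (hX1 : S_XNG) (hX2 : S_XN2) (hX3 : S_XN3) (hX4 : S_XN4) (hKP : S_KPG) (hDAT : S_DATV) :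
    S_NOGO2 := by
  have hCJ := Pool.Agent.Y809.EK.t_CJ1
  have hCJ2 := Pool.Agent.Y978.EK.t_CJ2 hCJ
  have hCh : Chain Ac := hCJ2.2.2.1
  obtain ⟨C, hC, hX⟩ := hX2 hLEV hX3 hX4
  obtain ⟨κ₀, T₀, ε₀, hκ, hT0, hε, hK⟩ := hKP Ac hCh (fun n => C * Ac n ^ (1 / 6 : ℝ))
    (fun n => by have := Ac_pos hCh n; positivity) (summ_c hCh C hC)
  refine ⟨κ₀, ε₀ / 4, T₀, hκ, by positivity, hT0, ?_⟩
  intro φ T V hφ hT hV h0
  have hd := hφ.dmp
  have hSy := hSYM hUNQ φ T V hd hV (by rw [h0]; exact hDAT.2.1)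
  have hen := hENR _ T V hd hV
  have hE0 : energy (V 0) = 1 := by rw [h0]; exact hDAT.2.2.1
  have hnn : ∀ t ∈ Ico 0 T, 0 ≤ ∑' k, φ (nsq k) * sq (V t k) := fun t _ =>
    tsum_nonneg fun k => mul_nonneg (hφ.nonneg _) (sq_nn _)
  have hle : ∀ t ∈ Ico 0 T, energy (V t) ≤ 1 := by
    have hanti : AntitoneOn (fun s => energy (V s)) (Ico 0 T) := by
      apply antitoneOn_of_hasDerivWithinAt_nonpos (convex_Ico 0 T)
        (fun t ht => (hen t ht).2.2.continuousWithinAt)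
        (f' := fun t => -(2 * ∑' k, φ (nsq k) * sq (V t k)))
      · intro t ht
        rw [interior_Ico] at ht ⊢
        exact (hen t ⟨ht.1.le, ht.2⟩).2.2.mono Ioo_subset_Ico_self
      · intro t ht
        rw [interior_Ico] at ht
        have := hnn t ⟨ht.1.le, ht.2⟩
        linarith
    intro t ht
    rw [← hE0]
    exact hanti ⟨le_rfl, hT⟩ ht ht.1
  have hreg : ∀ q : ℕ, ∀ t ∈ Ico 0 T, ∃ M, ∀ k j, len k ^ q * ‖V t k j‖ ≤ M := by
    intro q t ht
    obtain ⟨M, hM⟩ := hV.reg q t ht.2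
    exact ⟨M, fun k j => hM t ⟨ht.1, le_rfl⟩ k j⟩
  refine hK κ₀ T (fun n => φ (Pool.Agent.Y302.Trunc.rho 1 n)) (fun n t => xc (V t) n)
    (fun n t => bil (wOf (V t)) (wOf (V t)) (Em n) - cvf Ac (xc (V t)) n)
    (fun t => energy (V t)) (fun t => √(eo (V t))) le_rfl hT ?_ ?_ ?_ ?_ ?_ ?_ ?_ ?_ ?_ ?_
  · intro n
    refine ⟨hφ.nonneg _, ?_⟩
    obtain ⟨r1, r2, r3⟩ := rho_lac hLEV hDAT n
    refine (hφ.small _ r1).trans ?_
    have hA := Ac_pos hCh n
    have e1 : ((Pool.Agent.Y302.Trunc.rho 1 n : ℤ) : ℝ) ^ (1 / 4 : ℝ) ≤ 4 * √(Ac n) := by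
      calc ((Pool.Agent.Y302.Trunc.rho 1 n : ℤ) : ℝ) ^ (1 / 4 : ℝ)
          ≤ (256 * Ac n ^ 2) ^ (1 / 4 : ℝ) :=
            Real.rpow_le_rpow r3 (r2.trans (by nlinarith [sq_nonneg (Ac n)])) (by norm_num)
        _ = ((4 * √(Ac n)) ^ (4 : ℝ)) ^ (1 / 4 : ℝ) := by
            congr 1
            rw [show ((4 : ℝ) : ℝ) = ((4 : ℕ) : ℝ) by norm_num, Real.rpow_natCast, mul_pow]
            have : √(Ac n) ^ 4 = Ac n ^ 2 := by
              rw [show (4 : ℕ) = 2 * 2 by norm_num, pow_mul, Real.sq_sqrt (by linarith)]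
            rw [this]
            norm_num
        _ = 4 * √(Ac n) := by
            rw [← Real.rpow_mul (by positivity)]
            norm_num
    calc ε₀ / 4 * ((Pool.Agent.Y302.Trunc.rho 1 n : ℤ) : ℝ) ^ (1 / 4 : ℝ)
        ≤ ε₀ / 4 * (4 * √(Ac n)) := by gcongr
      _ = ε₀ * √(Ac n) := by ring
  · intro n t ht
    have h1 := hX1 hLEV φ T V hV hSy n t ht
    have h2 : cvf Ac (fun m => xc (V t) m) n - φ (Pool.Agent.Y302.Trunc.rho 1 n) * xc (V t) n +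
        (bil (wOf (V t)) (wOf (V t)) (Em n) - cvf Ac (xc (V t)) n) =
        bil (wOf (V t)) (wOf (V t)) (Em n) - φ (Pool.Agent.Y302.Trunc.rho 1 n) * xc (V t) n := by
      ring
    rw [h2]
    exact h1
  · intro n t ht
    exact hX (V t) (hV.field t ht) (hSy t ht) (hle t ht) n
  · intro t ht
    refine ⟨Real.sqrt_nonneg _, ?_, hle t ht⟩
    exact tsum_nonneg fun k => sq_nn _
  · intro T' hT'
    obtain ⟨M, hM⟩ := hV.reg 3 T' hT'
    refine ⟨√(3 * M ^ 2 * ∑' k : Z3, (if k = 0 then (0 : ℝ) else (len k ^ 4)⁻¹)), ?_⟩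
    intro t ht
    exact Real.sqrt_le_sqrt (eo_le hs (hM t ht))
  · intro t ht
    refine ⟨_, (hen t ht).2.2, ?_⟩
    rw [Real.sq_sqrt (eo_nonneg _)]
    obtain ⟨M, hM⟩ := hreg 3 t ht
    have h1 : κ₀ * eo (V t) ≤ ∑' k, φ (nsq k) * sq (V t k) := by
      unfold eo
      rw [← tsum_mul_left]
      refine Summable.tsum_le_tsum (fun k => ?_) (Summable.mul_left _ (eo_summ hs hM))
        (hen t ht).2.1
      by_cases hlac : lac (nsq k)
      · rw [if_pos hlac, mul_zero]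
        exact mul_nonneg (hφ.nonneg _) (sq_nn _)
      · rw [if_neg hlac, ← mul_assoc]
        apply mul_le_mul_of_nonneg_right _ (sq_nn _)
        by_cases hk : k = 0
        · subst hk
          have h0 : (nsq (0 : Z3) : ℝ) = 0 := by simp [nsq]
          rw [h0, Real.zero_rpow (by norm_num), mul_zero]
          exact hφ.nonneg _
        · exact hφ.low _ (by have := nsq_pos hk; omega) hlac
    linarith
  · intro t ht
    have h1 : ∀ N : ℕ, ∑ n ∈ Finset.range N, xc (V t) n ^ 2 ≤ 1 := by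
      intro N
      have h2 : ∑ n ∈ Finset.range N, xc (V t) n ^ 2 =
          ∑ k ∈ (Finset.range N).biUnion (fun n => Pool.Agent.Y302.Trunc.Lev 1 n), sq (V t k) := by
        rw [Finset.sum_biUnion]
        · refine Finset.sum_congr rfl fun n _ => ?_
          rw [lev_energy hLEV (hV.field t ht) (hSy t ht)]
        · intro a _ b _ hab
          exact lev_disj hab
      rw [h2]
      refine le_trans ?_ (hle t ht)
      exact (hen t ht).1.sum_le_tsum _ (fun k _ => sq_nn _)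
    exact ⟨summable_of_sum_range_le (fun n => sq_nonneg _) h1,
      Real.tsum_le_of_sum_range_le (fun n => sq_nonneg _) h1⟩
  · intro q T' hT'
    obtain ⟨M, hM⟩ := hV.reg q T' hT'
    refine ⟨√(72 * 100 ^ q * M ^ 2), ?_⟩
    intro t ht n
    have htT : t ∈ Ico 0 T := ⟨ht.1, lt_of_le_of_lt ht.2 hT'⟩
    have hA := Ac_pos hCh n
    apply Real.le_sqrt_of_sq_le
    rw [mul_pow, sq_abs, ← lev_energy hLEV (hV.field t htT) (hSy t htT), Finset.mul_sum]
    have hc := (hCJ.2.1 n).1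
    have h1 : ∀ k ∈ Pool.Agent.Y302.Trunc.Lev 1 n, (Ac n ^ q) ^ 2 * sq (V t k) ≤
        100 ^ q * (3 * M ^ 2) := by
      intro k hk
      have e1 := (hCJ.1 n k).1 hk
      have e2 := (hCJ2.2.2.2 n).2
      rw [← e1, len_vec, ← len_sq'] at e2
      have e3 : (Ac n ^ q) ^ 2 ≤ 100 ^ q * (len k ^ q) ^ 2 := by
        calc (Ac n ^ q) ^ 2 = (Ac n ^ 2) ^ q := by ring
          _ ≤ (100 * len k ^ 2) ^ q := pow_le_pow_left₀ (by positivity) e2 q
          _ = 100 ^ q * (len k ^ q) ^ 2 := by ring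
      have e4 : (len k ^ q) ^ 2 * sq (V t k) ≤ 3 * M ^ 2 := by
        have : (len k ^ q) ^ 2 * sq (V t k) = ∑ j, (len k ^ q * ‖V t k j‖) ^ 2 := by
          unfold sq
          rw [Finset.mul_sum]
          refine Finset.sum_congr rfl fun j _ => ?_
          ring
        rw [this, Fin.sum_univ_three]
        have hln := pow_nonneg (len_nn k) q
        have g := fun j => pow_le_pow_left₀ (mul_nonneg hln (norm_nonneg (V t k j)))
          (hM t ht k j) 2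
        have := g 0
        have := g 1
        have := g 2
        linarith
      calc (Ac n ^ q) ^ 2 * sq (V t k) ≤ 100 ^ q * (len k ^ q) ^ 2 * sq (V t k) :=
            mul_le_mul_of_nonneg_right e3 (sq_nn _)
        _ = 100 ^ q * ((len k ^ q) ^ 2 * sq (V t k)) := by ring
        _ ≤ 100 ^ q * (3 * M ^ 2) := by gcongr
    refine (Finset.sum_le_card_nsmul _ _ _ h1).trans (le_of_eq ?_)
    rw [hc, nsmul_eq_mul]
    push_cast
    ring
  · show xc (V 0) 0 = 1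
    rw [h0]
    exact hDAT.2.2.2.1
  · intro n
    show xc (V 0) (n + 1) = 0
    rw [h0]
    exact hDAT.2.2.2.2 n

theorem t_MAINW_of (hN : S_NOGO2) (hM : S_MAX) (hL : S_LOC) (hU : S_UNQ) (hG : S_GLU)
    (hE : S_ENR) (hS : S_SCL) (hD : S_DATV) : S_MAINW := by
  obtain ⟨ν₀, ε₀, T₀, hν, hε, hT, h⟩ := hN
  refine ⟨ν₀, ε₀, T₀, hν, hε, hT, fun a φ ha hφ => ?_⟩
  have hF : IsField (fun k j => (a : ℂ) * dat k j) := by
    obtain ⟨h0, hr, hdv, hsm⟩ := hD.1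
    refine ⟨?_, ?_, ?_, ?_⟩
    · funext j
      show (a : ℂ) * dat 0 j = 0
      rw [h0]
      simp
    · intro k j
      show (a : ℂ) * dat (-k) j = conj ((a : ℂ) * dat k j)
      rw [hr, map_mul, Complex.conj_ofReal]
    · intro k
      have := hdv k
      unfold dt at this ⊢
      calc ∑ j, kc k j * ((a : ℂ) * dat k j) = (a : ℂ) * ∑ j, kc k j * dat k j := by
            rw [Finset.mul_sum]
            exact Finset.sum_congr rfl fun j _ => by ring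
        _ = 0 := by rw [this, mul_zero]
    · intro q
      obtain ⟨M, hM⟩ := hsm q
      refine ⟨a * M, fun k j => ?_⟩
      rw [norm_mul, Complex.norm_real, Real.norm_eq_abs, abs_of_pos ha]
      calc len k ^ q * (a * ‖dat k j‖) = a * (len k ^ q * ‖dat k j‖) := by ring
        _ ≤ a * M := by gcongr; exact hM k j
  have hng : ∀ (T' : ℝ) (W : ℝ → Coef), 0 < T' → Sol (fun k => φ (nsq k)) T' W →
      W 0 = (fun k j => (a : ℂ) * dat k j) → T' ≤ T₀ / a := by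
    intro T' W hT' hW hW0
    have hai : 0 < a⁻¹ := inv_pos.2 ha
    have h1 := hS _ a⁻¹ T' W hai hW
    have h2 : Lac2 ν₀ ε₀ (fun N => a⁻¹ * φ N) := by
      refine ⟨fun N => mul_nonneg hai.le (hφ.nonneg N), fun N hN => ?_, fun N hN hl => ?_, ?_⟩
      · have h3 := hφ.small N hN
        calc a⁻¹ * φ N ≤ a⁻¹ * (ε₀ * a * (N : ℝ) ^ (1 / 4 : ℝ)) := by gcongr
          _ = ε₀ * (N : ℝ) ^ (1 / 4 : ℝ) := by field_simp
      · have h3 := hφ.low N hN hl
        calc ν₀ * (N : ℝ) ^ (5 / 6 : ℝ) = a⁻¹ * (ν₀ * a * (N : ℝ) ^ (5 / 6 : ℝ)) := by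
              field_simp
          _ ≤ a⁻¹ * φ N := by gcongr
      · obtain ⟨C, p, hC⟩ := hφ.poly
        refine ⟨a⁻¹ * C, p, fun N hN => ?_⟩
        rw [mul_assoc]
        exact mul_le_mul_of_nonneg_left (hC N hN) hai.le
    have h4 := h (fun N => a⁻¹ * φ N) (T' / a⁻¹) _ h2 (by positivity) h1 (by
      funext k j
      show ((a⁻¹ : ℝ) : ℂ) * W (a⁻¹ * 0) k j = dat k j
      rw [mul_zero, hW0]
      show ((a⁻¹ : ℝ) : ℂ) * ((a : ℂ) * dat k j) = dat k j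
      rw [← mul_assoc, ← Complex.ofReal_mul, inv_mul_cancel₀ ha.ne', Complex.ofReal_one, one_mul])
    rw [le_div_iff₀ ha]
    rwa [div_inv_eq_mul] at h4
  obtain ⟨T, V, hT1, hT2, hV, hV0, hmax, hbl⟩ := hM hL hU hG _ _ (T₀ / a) hφ.dmp hF hng
  refine ⟨T, V, hT1, hT2, hV, ?_, ?_, ?_, hbl⟩
  · intro k j
    rw [hV0]
  · intro T' W hT' hW hW0
    exact hmax T' W hT' hW (hW0.trans hV0)
  · intro t ht
    exact (hE _ T V hφ.dmp hV t ht).2.2

end Pool.Agent.Y5.V
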