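import Pool.Agent.Y5.V.Stm2

/-!
Third stage: damping of any order `> 4/3` off the lacunary set, and of any order `< 2/3` on it.
-/

open Set Filter Topology
open scoped ComplexConjugate

set_option autoImplicit false

namespace Pool.Agent.Y5.V

open Pool.Agent.Y6.M (Z3 C3 Coef dt kc cj nsq len adv leray IsField energy)
open Pool.Agent.Y5.D (pair bil vec)
open Pool.Agent.Y6.K (Em Ac cvf Chain)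

/-- The damping: `φ N ≤ ε N^σ` on the lacunary set, and `φ N ≥ ν N^s` elsewhere. -/
structure Lac3 (s σ ν ε : ℝ) (φ : ℤ → ℝ) : Prop where
  nonneg : ∀ N, 0 ≤ φ N
  small : ∀ N, lac N → φ N ≤ ε * (N : ℝ) ^ σ
  low : ∀ N, 0 < N → ¬ lac N → ν * (N : ℝ) ^ s ≤ φ N
  poly : ∃ (C : ℝ) (p : ℕ), ∀ N, 0 ≤ N → φ N ≤ C * (1 + (N : ℝ)) ^ p

/-- the square of the `H^s` norm of the damped part -/
noncomputable def eos (s : ℝ) (V : Coef) : ℝ :=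
  open Classical in
  ∑' k, if lac (nsq k) then 0 else (nsq k : ℝ) ^ s * sq (V k)

/-- Weights for the chain. -/
structure Wts (A w : ℕ → ℝ) : Prop where
  pos : ∀ n, 0 < w n
  one : w 0 = 1
  summ : Summable w
  gap : ∃ η : ℝ, 0 < η ∧ 2 * η * w 0 ≤ w 1 ∧ ∀ n, w n ^ 2 * A n +
    2 * η * w (n + 1) ^ 2 * A (n + 1) ≤ w (n + 1) * w (n + 2) * A (n + 1)

/-- The chain with damping `g n`, general weights. -/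
def S_KPW : Prop := ∀ A : ℕ → ℝ, Chain A → ∀ w : ℕ → ℝ, Wts A w → ∀ (c b : ℕ → ℝ),
  (∀ n, 0 ≤ c n) → (∀ n, 0 ≤ b n) → Summable (fun n => w n * c n) →
  Summable (fun n => w n * (b n ^ 2 / A n)) → ∃ κ₀ T₀ ε₀ : ℝ, 0 < κ₀ ∧ 0 < T₀ ∧ 0 < ε₀ ∧
  ∀ (κ T : ℝ) (g : ℕ → ℝ) (x f : ℕ → ℝ → ℝ) (en E : ℝ → ℝ), κ₀ ≤ κ → 0 < T →
    (∀ n, 0 ≤ g n ∧ g n ≤ ε₀ * b n) →
    (∀ n, ∀ t ∈ Ico 0 T,
      HasDerivWithinAt (x n) (cvf A (fun m => x m t) n - g n * x n t + f n t) (Ico 0 T) t) →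
    (∀ n, ∀ t ∈ Ico 0 T, |f n t| ≤ c n * E t) →
    (∀ t ∈ Ico 0 T, 0 ≤ E t ∧ 0 ≤ en t ∧ en t ≤ 1) → (∀ T' < T, ∃ M, ∀ t ∈ Icc 0 T', E t ≤ M) →
    (∀ t ∈ Ico 0 T, ∃ e', HasDerivWithinAt en e' (Ico 0 T) t ∧ e' ≤ -(2 * κ * E t ^ 2)) →
    (∀ t ∈ Ico 0 T, Summable (fun n => x n t ^ 2) ∧ ∑' n, x n t ^ 2 ≤ 1) →
    (∀ (k : ℕ), ∀ T' < T, ∃ M, ∀ t ∈ Icc 0 T', ∀ n, A n ^ k * |x n t| ≤ M) →
    x 0 0 = 1 → (∀ n, x (n + 1) 0 = 0) → T ≤ T₀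

/-- Weights of almost critical decay exist. -/
def S_WT : Prop := ∀ q : ℝ, 0 < q → q < 1 → ∃ w : ℕ → ℝ, Wts Ac w ∧
  ∀ p : ℝ, p < q / 3 → Summable (fun n => w n * Ac n ^ p)

/-- The interactions of the chain with the damped modes. -/
def S_XN4S : Prop := ∀ s : ℝ, 0 < s → s ≤ 1 → ∃ C : ℝ, 0 < C ∧
  ∀ (w : Pool.Agent.Y5.D.Fam) (x : ℕ → ℝ),
  Pool.Agent.Y5.D.OT w → Pool.Agent.Y5.D.Rap w → ∑' k, ‖w k‖ ^ 2 ≤ 1 →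
  (∀ n, ∀ k ∈ Pool.Agent.Y302.Trunc.Lev 1 n, w k = x n • Em n k) → ∀ n,
  |bil w w (Em n) - bil (wch x) (wch x) (Em n)| ≤ C * Ac n ^ (1 - s) *
    √(open Classical in
      ∑' k, if lac (nsq k) then 0 else (nsq k : ℝ) ^ s * ‖w k‖ ^ 2)

/-- The perturbations of the chain. -/
def S_XN2S : Prop := S_LEV → S_XN3 → S_XN4S → ∀ s : ℝ, 0 < s → s ≤ 1 → ∃ C : ℝ, 0 < C ∧
  ∀ V : Coef, IsField V → Sy V → energy V ≤ 1 →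
  ∀ n, |bil (wOf V) (wOf V) (Em n) - cvf Ac (xc V) n| ≤ C * Ac n ^ (1 - s) * √(eos s V)

/-- Smooth solutions do not exist for a long time. -/
def S_NOGO3 : Prop := ∀ s σ : ℝ, 2 / 3 < s → σ < 1 / 3 → ∃ ν₀ ε₀ T₀ : ℝ, 0 < ν₀ ∧ 0 < ε₀ ∧
  0 < T₀ ∧ ∀ (φ : ℤ → ℝ) (T : ℝ) (V : ℝ → Coef),
  Lac3 s σ ν₀ ε₀ φ → 0 < T → Sol (fun k => φ (nsq k)) T V → V 0 = dat → T ≤ T₀

/-- The main theorem. -/
def S_MAINX : Prop := ∀ s σ : ℝ, 2 / 3 < s → σ < 1 / 3 → ∃ ν₀ ε₀ T₀ : ℝ, 0 < ν₀ ∧ 0 < ε₀ ∧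
  0 < T₀ ∧ ∀ (a : ℝ) (φ : ℤ → ℝ), 0 < a → Lac3 s σ (ν₀ * a) (ε₀ * a) φ →
  ∃ (T : ℝ) (V : ℝ → Coef), 0 < T ∧ T ≤ T₀ / a ∧
    Sol (fun k => φ (nsq k)) T V ∧ (∀ k j, V 0 k j = (a : ℂ) * dat k j) ∧
    -- uniqueness, and `T` is the maximal time of existence
    (∀ (T' : ℝ) (W : ℝ → Coef), 0 < T' → Sol (fun k => φ (nsq k)) T' W → W 0 = V 0 →
      T' ≤ T ∧ ∀ t ∈ Ico 0 T', W t = V t) ∧
    -- the energy identity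
    (∀ t ∈ Ico 0 T, HasDerivWithinAt (fun s => energy (V s))
      (-(2 * ∑' k, φ (nsq k) * sq (V t k))) (Ico 0 T) t) ∧
    -- blow-up
    ∀ M : ℝ, ∃ t ∈ Ico 0 T, M < hE 3 (V t)

end Pool.Agent.Y5.V
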