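import Pool.Agent.Y5.V.Asm2
import Pool.Agent.Y5.V.Stm3

/-! Assembly of the third stage. -/

open Set Filter Topology
open scoped ComplexConjugate

set_option autoImplicit false

namespace Pool.Agent.Y5.V

open Pool.Agent.Y6.M (Z3 C3 Coef dt kc cj nsq len adv leray IsField energy)
open Pool.Agent.Y5.D (pair bil vec)
open Pool.Agent.Y6.K (Em Ac cvf Chain)

lemma Lac3.dmp {s σ ν ε : ℝ} {φ : ℤ → ℝ} (h : Lac3 s σ ν ε φ) : Dmp (fun k => φ (nsq k)) := by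
  refine ⟨fun k => h.nonneg _, fun k => by rw [nsq_neg], ?_⟩
  obtain ⟨C, p, hC⟩ := h.poly
  refine ⟨|C|, 2 * p, fun k => ?_⟩
  have h1 := hC (nsq k) (nsq_nn k)
  have h2 : C * (1 + (nsq k : ℝ)) ^ p ≤ |C| * (1 + (nsq k : ℝ)) ^ p := by
    have : (0 : ℝ) ≤ (nsq k : ℝ) := by exact_mod_cast nsq_nn k
    have := le_abs_self C
    gcongr
  refine h1.trans (h2.trans ?_)
  rw [pow_mul]
  have h3 := len_sq' k
  have h4 := len_nn k
  have h5 : 1 + (nsq k : ℝ) ≤ (1 + len k) ^ 2 := by nlinarith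
  have h6 : (0 : ℝ) ≤ 1 + (nsq k : ℝ) := by
    have : (0 : ℝ) ≤ (nsq k : ℝ) := by exact_mod_cast nsq_nn k
    linarith
  gcongr

open Classical in
lemma eos_term {s : ℝ} (hs0 : 0 < s) (hs1 : s ≤ 1) {V : Coef} {M : ℝ}
    (hM : ∀ k j, len k ^ 3 * ‖V k j‖ ≤ M) (k : Z3) :
    (if lac (nsq k) then 0 else (nsq k : ℝ) ^ s * sq (V k)) ≤
      3 * M ^ 2 * (if k = 0 then (0 : ℝ) else (len k ^ 4)⁻¹) := by
  by_cases hk : k = 0
  · subst hk
    have h0 : (nsq (0 : Z3) : ℝ) = 0 := by simp [nsq]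
    rw [h0, Real.zero_rpow hs0.ne']
    simp
  · rw [if_neg hk]
    have hl := len_one hk
    have hl0 : 0 < len k := by linarith
    have hM0 : 0 ≤ M := le_trans (by positivity) (hM k 0)
    by_cases hlac : lac (nsq k)
    · rw [if_pos hlac]; positivity
    rw [if_neg hlac]
    have h1 : (nsq k : ℝ) ^ s ≤ len k ^ 2 := by
      rw [len_sq']
      have h2 : (1 : ℝ) ≤ (nsq k : ℝ) := by exact_mod_cast nsq_pos hk
      calc (nsq k : ℝ) ^ s ≤ (nsq k : ℝ) ^ (1 : ℝ) :=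
            Real.rpow_le_rpow_of_exponent_le h2 hs1
        _ = _ := Real.rpow_one _
    have h3 : sq (V k) ≤ 3 * (M / len k ^ 3) ^ 2 := by
      apply sq_le
      intro j
      rw [le_div_iff₀ (by positivity), mul_comm]
      exact hM k j
    calc (nsq k : ℝ) ^ s * sq (V k) ≤ len k ^ 2 * (3 * (M / len k ^ 3) ^ 2) := by
          apply mul_le_mul h1 h3 (sq_nn _) (by positivity)
      _ = 3 * M ^ 2 * (len k ^ 4)⁻¹ := by field_simp

open Classical in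
lemma eos_nn (s : ℝ) (V : Coef) (k : Z3) :
    0 ≤ (if lac (nsq k) then (0 : ℝ) else (nsq k : ℝ) ^ s * sq (V k)) := by
  split_ifs
  · exact le_rfl
  · have : (0 : ℝ) ≤ (nsq k : ℝ) := by exact_mod_cast nsq_nn k
    have := sq_nn (V k)
    positivity

lemma eos_nonneg (s : ℝ) (V : Coef) : 0 ≤ eos s V := tsum_nonneg fun k => eos_nn s V k

open Classical in
lemma eos_summ (hs : S_SUM) {s : ℝ} (hs0 : 0 < s) (hs1 : s ≤ 1) {V : Coef} {M : ℝ}
    (hM : ∀ k j, len k ^ 3 * ‖V k j‖ ≤ M) :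
    Summable fun k => (if lac (nsq k) then (0 : ℝ) else (nsq k : ℝ) ^ s * sq (V k)) :=
  Summable.of_nonneg_of_le (fun k => eos_nn s V k) (fun k => eos_term hs0 hs1 hM k)
    (Summable.mul_left _ hs)

lemma eos_le (hs : S_SUM) {s : ℝ} (hs0 : 0 < s) (hs1 : s ≤ 1) {V : Coef} {M : ℝ}
    (hM : ∀ k j, len k ^ 3 * ‖V k j‖ ≤ M) :
    eos s V ≤ 3 * M ^ 2 * ∑' k : Z3, (if k = 0 then (0 : ℝ) else (len k ^ 4)⁻¹) := by
  unfold eos
  rw [← tsum_mul_left]
  exact (eos_summ hs hs0 hs1 hM).tsum_le_tsum (fun k => eos_term hs0 hs1 hM k)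
    (Summable.mul_left _ hs)

lemma lac_pos {N : ℤ} (h : lac N) : (1 : ℝ) ≤ (N : ℝ) := by
  obtain ⟨j, h⟩ := h
  have h64 : (1 : ℤ) ≤ 64 ^ j := one_le_pow₀ (by norm_num)
  have : (1 : ℤ) ≤ N := by
    rcases h with h | h | h | h <;> · rw [h]; nlinarith
  exact_mod_cast this

/-- reduction to `s ≤ 1`, `σ ≥ 0` -/
lemma Lac3.red {s σ ν ε : ℝ} {φ : ℤ → ℝ} (hν : 0 < ν) (hε : 0 < ε) (h : Lac3 s σ ν ε φ) :
    Lac3 (min s 1) (max σ 0) ν ε φ := by
  refine ⟨h.nonneg, fun N hN => ?_, fun N hN hl => ?_, h.poly⟩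
  · refine (h.small N hN).trans ?_
    have := Real.rpow_le_rpow_of_exponent_le (lac_pos hN) (le_max_left σ 0)
    gcongr
  · refine le_trans ?_ (h.low N hN hl)
    have h1 : (1 : ℝ) ≤ (N : ℝ) := by exact_mod_cast hN
    have := Real.rpow_le_rpow_of_exponent_le h1 (min_le_left s 1)
    gcongr

/-- the case `s ≤ 1`, `σ ≥ 0` -/
theorem t_NOGO3_aux (hs : S_SUM) (hSYM : S_SYM) (hUNQ : S_UNQ) (hENR : S_ENR) (hLEV : S_LEV)
    (hX1 : S_XNG) (hX2 : S_XN2S) (hX3 : S_XN3) (hX4 : S_XN4S) (hKP : S_KPW) (hWT : S_WT)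
    (hDAT : S_DATV) (s σ : ℝ) (hs2 : 2 / 3 < s) (hs1 : s ≤ 1) (hσ0 : 0 ≤ σ) (hσ : σ < 1 / 3) :
    ∃ ν₀ ε₀ T₀ : ℝ, 0 < ν₀ ∧ 0 < ε₀ ∧
      0 < T₀ ∧ ∀ (φ : ℤ → ℝ) (T : ℝ) (V : ℝ → Coef),
      Lac3 s σ ν₀ ε₀ φ → 0 < T → Sol (fun k => φ (nsq k)) T V → V 0 = dat → T ≤ T₀ := by
  have hs0 : 0 < s := by linarith
  have hCJ := Pool.Agent.Y809.EK.t_CJ1
  have hCJ2 := Pool.Agent.Y978.EK.t_CJ2 hCJ
  have hCh : Chain Ac := hCJ2.2.2.1
  obtain ⟨C, hC, hX⟩ := hX2 hLEV hX3 hX4 s hs0 hs1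
  obtain ⟨q, hq0, hq1, hqa, hqb⟩ : ∃ q : ℝ, 0 < q ∧ q < 1 ∧ 1 - s < q / 3 ∧
      4 * σ - 1 < q / 3 := by
    refine ⟨(max (3 * (1 - s)) (max (3 * (4 * σ - 1)) 0) + 1) / 2, ?_, ?_, ?_, ?_⟩
    · have := le_max_right (3 * (1 - s)) (max (3 * (4 * σ - 1)) 0)
      have := le_max_right (3 * (4 * σ - 1)) 0
      linarith
    · have : max (3 * (1 - s)) (max (3 * (4 * σ - 1)) 0) < 1 :=
        max_lt (by linarith) (max_lt (by linarith) (by norm_num))
      linarith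
    · have := le_max_left (3 * (1 - s)) (max (3 * (4 * σ - 1)) 0)
      linarith
    · have := le_max_right (3 * (1 - s)) (max (3 * (4 * σ - 1)) 0)
      have := le_max_left (3 * (4 * σ - 1)) 0
      linarith
  obtain ⟨w, hw, hsum⟩ := hWT q hq0 hq1
  obtain ⟨κ₀, T₀, ε₀, hκ, hT0, hε, hK⟩ := hKP Ac hCh w hw (fun n => C * Ac n ^ (1 - s))
    (fun n => Ac n ^ (2 * σ))
    (fun n => by have := Ac_pos hCh n; positivity) (fun n => by have := Ac_pos hCh n; positivity)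
    (by
      refine ((hsum _ hqa).mul_left C).congr fun n => ?_
      ring) (by
      refine (hsum _ hqb).congr fun n => ?_
      have hA := Ac_pos hCh n
      have hA0 : 0 < Ac n := by linarith
      congr 1
      rw [← Real.rpow_natCast (Ac n ^ (2 * σ)) 2, ← Real.rpow_mul hA0.le, Real.rpow_sub hA0,
        Real.rpow_one]
      congr 2
      push_cast
      ring)
  refine ⟨κ₀, ε₀ / 100, T₀, hκ, by positivity, hT0, ?_⟩
  intro φ T V hφ hT hV h0
  have hd := hφ.dmp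
  have hSy := hSYM hUNQ φ T V hd hV (by rw [h0]; exact hDAT.2.1)
  have hen := hENR _ T V hd hV
  have hE0 : energy (V 0) = 1 := by rw [h0]; exact hDAT.2.2.1
  have hnn : ∀ t ∈ Ico 0 T, 0 ≤ ∑' k, φ (nsq k) * sq (V t k) := fun t _ =>
    tsum_nonneg fun k => mul_nonneg (hφ.nonneg _) (sq_nn _)
  have hle : ∀ t ∈ Ico 0 T, energy (V t) ≤ 1 := by
    have hanti : AntitoneOn (fun s => energy (V s)) (Ico 0 T) := by
      apply antitoneOn_of_hasDerivWithinAt_nonpos (convex_Ico 0 T)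
        (fun t ht => (hen t ht).2.2.continuousWithinAt)
        (f' := fun t => -(2 * ∑' k, φ (nsq k) * sq (V t k)))
      · intro t ht
        rw [interior_Ico] at ht ⊢
        exact (hen t ⟨ht.1.le, ht.2⟩).2.2.mono Ioo_subset_Ico_self
      · intro t ht
        rw [interior_Ico] at ht
        have := hnn t ⟨ht.1.le, ht.2⟩
        linarith
    intro t ht
    rw [← hE0]
    exact hanti ⟨le_rfl, hT⟩ ht ht.1
  have hreg : ∀ q : ℕ, ∀ t ∈ Ico 0 T, ∃ M, ∀ k j, len k ^ q * ‖V t k j‖ ≤ M := by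
    intro q t ht
    obtain ⟨M, hM⟩ := hV.reg q t ht.2
    exact ⟨M, fun k j => hM t ⟨ht.1, le_rfl⟩ k j⟩
  refine hK κ₀ T (fun n => φ (Pool.Agent.Y302.Trunc.rho 1 n)) (fun n t => xc (V t) n)
    (fun n t => bil (wOf (V t)) (wOf (V t)) (Em n) - cvf Ac (xc (V t)) n)
    (fun t => energy (V t)) (fun t => √(eos s (V t))) le_rfl hT ?_ ?_ ?_ ?_ ?_ ?_ ?_ ?_ ?_ ?_
  · intro n
    refine ⟨hφ.nonneg _, ?_⟩
    obtain ⟨r1, r2, r3⟩ := rho_lac hLEV hDAT n
    refine (hφ.small _ r1).trans ?_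
    have hA := Ac_pos hCh n
    have hA0 : 0 < Ac n := by linarith
    have e1 : ((Pool.Agent.Y302.Trunc.rho 1 n : ℤ) : ℝ) ^ σ ≤ 100 * Ac n ^ (2 * σ) := by
      calc ((Pool.Agent.Y302.Trunc.rho 1 n : ℤ) : ℝ) ^ σ
          ≤ (100 * Ac n ^ 2) ^ σ := Real.rpow_le_rpow r3 r2 hσ0
        _ = 100 ^ σ * Ac n ^ (2 * σ) := by
            rw [Real.mul_rpow (by norm_num) (by positivity), Real.rpow_mul hA0.le,
              Real.rpow_ofNat]
        _ ≤ 100 ^ (1 : ℝ) * Ac n ^ (2 * σ) := by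
            have := Real.rpow_le_rpow_of_exponent_le (by norm_num : (1 : ℝ) ≤ 100)
              (by linarith : σ ≤ 1)
            gcongr
        _ = _ := by rw [Real.rpow_one]
    calc ε₀ / 100 * ((Pool.Agent.Y302.Trunc.rho 1 n : ℤ) : ℝ) ^ σ
        ≤ ε₀ / 100 * (100 * Ac n ^ (2 * σ)) := by gcongr
      _ = ε₀ * Ac n ^ (2 * σ) := by ring
  · intro n t ht
    have h1 := hX1 hLEV φ T V hV hSy n t ht
    have h2 : cvf Ac (fun m => xc (V t) m) n - φ (Pool.Agent.Y302.Trunc.rho 1 n) * xc (V t) n +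
        (bil (wOf (V t)) (wOf (V t)) (Em n) - cvf Ac (xc (V t)) n) =
        bil (wOf (V t)) (wOf (V t)) (Em n) - φ (Pool.Agent.Y302.Trunc.rho 1 n) * xc (V t) n := by
      ring
    rw [h2]
    exact h1
  · intro n t ht
    exact hX (V t) (hV.field t ht) (hSy t ht) (hle t ht) n
  · intro t ht
    refine ⟨Real.sqrt_nonneg _, ?_, hle t ht⟩
    exact tsum_nonneg fun k => sq_nn _
  · intro T' hT'
    obtain ⟨M, hM⟩ := hV.reg 3 T' hT'
    refine ⟨√(3 * M ^ 2 * ∑' k : Z3, (if k = 0 then (0 : ℝ) else (len k ^ 4)⁻¹)), ?_⟩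
    intro t ht
    exact Real.sqrt_le_sqrt (eos_le hs hs0 hs1 (hM t ht))
  · intro t ht
    refine ⟨_, (hen t ht).2.2, ?_⟩
    rw [Real.sq_sqrt (eos_nonneg s _)]
    obtain ⟨M, hM⟩ := hreg 3 t ht
    have h1 : κ₀ * eos s (V t) ≤ ∑' k, φ (nsq k) * sq (V t k) := by
      unfold eos
      rw [← tsum_mul_left]
      refine Summable.tsum_le_tsum (fun k => ?_) (Summable.mul_left _ (eos_summ hs hs0 hs1 hM))
        (hen t ht).2.1
      by_cases hlac : lac (nsq k)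
      · rw [if_pos hlac, mul_zero]
        exact mul_nonneg (hφ.nonneg _) (sq_nn _)
      · rw [if_neg hlac, ← mul_assoc]
        apply mul_le_mul_of_nonneg_right _ (sq_nn _)
        by_cases hk : k = 0
        · subst hk
          have h0 : (nsq (0 : Z3) : ℝ) = 0 := by simp [nsq]
          rw [h0, Real.zero_rpow hs0.ne', mul_zero]
          exact hφ.nonneg _
        · exact hφ.low _ (by have := nsq_pos hk; omega) hlac
    linarith
  · intro t ht
    have h1 : ∀ N : ℕ, ∑ n ∈ Finset.range N, xc (V t) n ^ 2 ≤ 1 := by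
      intro N
      have h2 : ∑ n ∈ Finset.range N, xc (V t) n ^ 2 =
          ∑ k ∈ (Finset.range N).biUnion (fun n => Pool.Agent.Y302.Trunc.Lev 1 n), sq (V t k) := by
        rw [Finset.sum_biUnion]
        · refine Finset.sum_congr rfl fun n _ => ?_
          rw [lev_energy hLEV (hV.field t ht) (hSy t ht)]
        · intro a _ b _ hab
          exact lev_disj hab
      rw [h2]
      refine le_trans ?_ (hle t ht)
      exact (hen t ht).1.sum_le_tsum _ (fun k _ => sq_nn _)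
    exact ⟨summable_of_sum_range_le (fun n => sq_nonneg _) h1,
      Real.tsum_le_of_sum_range_le (fun n => sq_nonneg _) h1⟩
  · intro q T' hT'
    obtain ⟨M, hM⟩ := hV.reg q T' hT'
    refine ⟨√(72 * 100 ^ q * M ^ 2), ?_⟩
    intro t ht n
    have htT : t ∈ Ico 0 T := ⟨ht.1, lt_of_le_of_lt ht.2 hT'⟩
    have hA := Ac_pos hCh n
    apply Real.le_sqrt_of_sq_le
    rw [mul_pow, sq_abs, ← lev_energy hLEV (hV.field t htT) (hSy t htT), Finset.mul_sum]
    have hc := (hCJ.2.1 n).1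
    have h1 : ∀ k ∈ Pool.Agent.Y302.Trunc.Lev 1 n, (Ac n ^ q) ^ 2 * sq (V t k) ≤
        100 ^ q * (3 * M ^ 2) := by
      intro k hk
      have e1 := (hCJ.1 n k).1 hk
      have e2 := (hCJ2.2.2.2 n).2
      rw [← e1, len_vec, ← len_sq'] at e2
      have e3 : (Ac n ^ q) ^ 2 ≤ 100 ^ q * (len k ^ q) ^ 2 := by
        calc (Ac n ^ q) ^ 2 = (Ac n ^ 2) ^ q := by ring
          _ ≤ (100 * len k ^ 2) ^ q := pow_le_pow_left₀ (by positivity) e2 q
          _ = 100 ^ q * (len k ^ q) ^ 2 := by ring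
      have e4 : (len k ^ q) ^ 2 * sq (V t k) ≤ 3 * M ^ 2 := by
        have : (len k ^ q) ^ 2 * sq (V t k) = ∑ j, (len k ^ q * ‖V t k j‖) ^ 2 := by
          unfold sq
          rw [Finset.mul_sum]
          refine Finset.sum_congr rfl fun j _ => ?_
          ring
        rw [this, Fin.sum_univ_three]
        have hln := pow_nonneg (len_nn k) q
        have g := fun j => pow_le_pow_left₀ (mul_nonneg hln (norm_nonneg (V t k j)))
          (hM t ht k j) 2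
        have := g 0
        have := g 1
        have := g 2
        linarith
      calc (Ac n ^ q) ^ 2 * sq (V t k) ≤ 100 ^ q * (len k ^ q) ^ 2 * sq (V t k) :=
            mul_le_mul_of_nonneg_right e3 (sq_nn _)
        _ = 100 ^ q * ((len k ^ q) ^ 2 * sq (V t k)) := by ring
        _ ≤ 100 ^ q * (3 * M ^ 2) := by gcongr
    refine (Finset.sum_le_card_nsmul _ _ _ h1).trans (le_of_eq ?_)
    rw [hc, nsmul_eq_mul]
    push_cast
    ring
  · show xc (V 0) 0 = 1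
    rw [h0]
    exact hDAT.2.2.2.1
  · intro n
    show xc (V 0) (n + 1) = 0
    rw [h0]
    exact hDAT.2.2.2.2 n


theorem t_NOGO3_of (hs : S_SUM) (hSYM : S_SYM) (hUNQ : S_UNQ) (hENR : S_ENR) (hLEV : S_LEV)
    (hX1 : S_XNG) (hX2 : S_XN2S) (hX3 : S_XN3) (hX4 : S_XN4S) (hKP : S_KPW) (hWT : S_WT)
    (hDAT : S_DATV) : S_NOGO3 := by
  intro s σ hs2 hσ
  obtain ⟨ν₀, ε₀, T₀, hν, hε, hT, h⟩ := t_NOGO3_aux hs hSYM hUNQ hENR hLEV hX1 hX2 hX3 hX4 hKP
    hWT hDAT (min s 1) (max σ 0) (lt_min hs2 (by norm_num)) (min_le_right _ _) (le_max_right _ _)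
    (max_lt hσ (by norm_num))
  exact ⟨ν₀, ε₀, T₀, hν, hε, hT, fun φ T V hφ hT hV h0 => h φ T V (hφ.red hν hε) hT hV h0⟩

theorem t_MAINX_of (hN : S_NOGO3) (hM : S_MAX) (hL : S_LOC) (hU : S_UNQ) (hG : S_GLU)
    (hE : S_ENR) (hS : S_SCL) (hD : S_DATV) : S_MAINX := by
  intro s σ hs2 hσ
  obtain ⟨ν₀, ε₀, T₀, hν, hε, hT, h⟩ := hN s σ hs2 hσ
  refine ⟨ν₀, ε₀, T₀, hν, hε, hT, fun a φ ha hφ => ?_⟩
  have hF : IsField (fun k j => (a : ℂ) * dat k j) := by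
    obtain ⟨h0, hr, hdv, hsm⟩ := hD.1
    refine ⟨?_, ?_, ?_, ?_⟩
    · funext j
      show (a : ℂ) * dat 0 j = 0
      rw [h0]
      simp
    · intro k j
      show (a : ℂ) * dat (-k) j = conj ((a : ℂ) * dat k j)
      rw [hr, map_mul, Complex.conj_ofReal]
    · intro k
      have := hdv k
      unfold dt at this ⊢
      calc ∑ j, kc k j * ((a : ℂ) * dat k j) = (a : ℂ) * ∑ j, kc k j * dat k j := by
            rw [Finset.mul_sum]
            exact Finset.sum_congr rfl fun j _ => by ring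
        _ = 0 := by rw [this, mul_zero]
    · intro q
      obtain ⟨M, hM⟩ := hsm q
      refine ⟨a * M, fun k j => ?_⟩
      rw [norm_mul, Complex.norm_real, Real.norm_eq_abs, abs_of_pos ha]
      calc len k ^ q * (a * ‖dat k j‖) = a * (len k ^ q * ‖dat k j‖) := by ring
        _ ≤ a * M := by gcongr; exact hM k j
  have hng : ∀ (T' : ℝ) (W : ℝ → Coef), 0 < T' → Sol (fun k => φ (nsq k)) T' W →
      W 0 = (fun k j => (a : ℂ) * dat k j) → T' ≤ T₀ / a := by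
    intro T' W hT' hW hW0
    have hai : 0 < a⁻¹ := inv_pos.2 ha
    have h1 := hS _ a⁻¹ T' W hai hW
    have h2 : Lac3 s σ ν₀ ε₀ (fun N => a⁻¹ * φ N) := by
      refine ⟨fun N => mul_nonneg hai.le (hφ.nonneg N), fun N hN => ?_, fun N hN hl => ?_, ?_⟩
      · have h3 := hφ.small N hN
        calc a⁻¹ * φ N ≤ a⁻¹ * (ε₀ * a * (N : ℝ) ^ σ) := by gcongr
          _ = ε₀ * (N : ℝ) ^ σ := by field_simp
      · have h3 := hφ.low N hN hl
        calc ν₀ * (N : ℝ) ^ s = a⁻¹ * (ν₀ * a * (N : ℝ) ^ s) := by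
              field_simp
          _ ≤ a⁻¹ * φ N := by gcongr
      · obtain ⟨C, p, hC⟩ := hφ.poly
        refine ⟨a⁻¹ * C, p, fun N hN => ?_⟩
        rw [mul_assoc]
        exact mul_le_mul_of_nonneg_left (hC N hN) hai.le
    have h4 := h (fun N => a⁻¹ * φ N) (T' / a⁻¹) _ h2 (by positivity) h1 (by
      funext k j
      show ((a⁻¹ : ℝ) : ℂ) * W (a⁻¹ * 0) k j = dat k j
      rw [mul_zero, hW0]
      show ((a⁻¹ : ℝ) : ℂ) * ((a : ℂ) * dat k j) = dat k j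
      rw [← mul_assoc, ← Complex.ofReal_mul, inv_mul_cancel₀ ha.ne', Complex.ofReal_one, one_mul])
    rw [le_div_iff₀ ha]
    rwa [div_inv_eq_mul] at h4
  obtain ⟨T, V, hT1, hT2, hV, hV0, hmax, hbl⟩ := hM hL hU hG _ _ (T₀ / a) hφ.dmp hF hng
  refine ⟨T, V, hT1, hT2, hV, ?_, ?_, ?_, hbl⟩
  · intro k j
    rw [hV0]
  · intro T' W hT' hW hW0
    exact hmax T' W hT' hW (hW0.trans hV0)
  · intro t ht
    exact (hE _ T V hφ.dmp hV t ht).2.2

end Pool.Agent.Y5.V
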