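import Pool.Agent.Y5.V.Stm3

/-!
Fourth stage: fields of period `1/m`. Damping is needed only for the eigenvalues divisible by `m²`.
-/

open Set Filter Topology
open scoped ComplexConjugate

set_option autoImplicit false

namespace Pool.Agent.Y5.V

open Pool.Agent.Y6.M (Z3 C3 Coef dt kc cj nsq len adv leray IsField energy)

/-- all coordinates of `k` are divisible by `m` -/
def Mul (m : ℕ) (k : Z3) : Prop := ∀ i, (m : ℤ) ∣ k i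

/-- `m k` -/
def mu (m : ℕ) (k : Z3) : Z3 := fun i => m * k i

/-- Solutions with the period `1/m`. -/
def S_PER : Prop := S_UNQ → ∀ (d : Z3 → ℝ) (T : ℝ) (W : ℝ → Coef) (m : ℕ), 0 < m → Dmp d →
  Sol d T W → (∀ k, ¬ Mul m k → W 0 k = 0) → ∀ t ∈ Ico 0 T, ∀ k, ¬ Mul m k → W t k = 0

/-- Dilation of solutions with the period `1/m`. -/
def S_UND : Prop := ∀ (d : Z3 → ℝ) (T : ℝ) (W : ℝ → Coef) (m : ℕ), 0 < m → Sol d T W →
  (∀ t ∈ Ico 0 T, ∀ k, ¬ Mul m k → W t k = 0) →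
  Sol (fun k => d (mu m k)) T (fun t k j => (m : ℂ) * W t (mu m k) j)

open Classical in
/-- the initial field `c dat(m x)` -/
noncomputable def ddl (m : ℕ) (c : ℝ) : Coef := fun k j =>
  if Mul m k then (c : ℂ) * dat (fun i => k i / m) j else 0

/-- The dilated initial field. -/
def S_DDL : Prop := IsField dat → ∀ (m : ℕ) (c : ℝ), 0 < m → IsField (ddl m c)

/-- The main theorem. -/
def S_MAINY : Prop := ∀ s σ : ℝ, 2 / 3 < s → σ < 1 / 3 → ∃ ν₀ ε₀ T₀ : ℝ, 0 < ν₀ ∧ 0 < ε₀ ∧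
  0 < T₀ ∧ ∀ (m : ℕ) (a : ℝ) (φ : ℤ → ℝ), 0 < m → 0 < a →
  (∀ N, 0 ≤ φ N) →
  (∀ N, lac N → φ (m ^ 2 * N) ≤ ε₀ * a * (N : ℝ) ^ σ) →
  (∀ N, 0 < N → ¬ lac N → ν₀ * a * (N : ℝ) ^ s ≤ φ (m ^ 2 * N)) →
  (∃ (C : ℝ) (p : ℕ), ∀ N, 0 ≤ N → φ N ≤ C * (1 + (N : ℝ)) ^ p) →
  ∃ (T : ℝ) (V : ℝ → Coef), 0 < T ∧ T ≤ T₀ / a ∧
    Sol (fun k => φ (nsq k)) T V ∧ V 0 = ddl m (a / m) ∧
    -- uniqueness, and `T` is the maximal time of existence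
    (∀ (T' : ℝ) (W : ℝ → Coef), 0 < T' → Sol (fun k => φ (nsq k)) T' W → W 0 = V 0 →
      T' ≤ T ∧ ∀ t ∈ Ico 0 T', W t = V t) ∧
    -- the energy identity
    (∀ t ∈ Ico 0 T, HasDerivWithinAt (fun s => energy (V s))
      (-(2 * ∑' k, φ (nsq k) * sq (V t k))) (Ico 0 T) t) ∧
    -- blow-up
    ∀ M : ℝ, ∃ t ∈ Ico 0 T, M < hE 3 (V t)

end Pool.Agent.Y5.V
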