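import Pool.Agent.Y5.V.Asm3
import Pool.Agent.Y5.V.Stm4

/-! Assembly of the fourth stage. -/

open Set Filter Topology
open scoped ComplexConjugate

set_option autoImplicit false

namespace Pool.Agent.Y5.V

open Pool.Agent.Y6.M (Z3 C3 Coef dt kc cj nsq len adv leray IsField energy)
open Pool.Agent.Y5.D (pair bil vec)
open Pool.Agent.Y6.K (Em Ac cvf Chain)

lemma dmp_of {φ : ℤ → ℝ} (h0 : ∀ N, 0 ≤ φ N)
    (h1 : ∃ (C : ℝ) (p : ℕ), ∀ N, 0 ≤ N → φ N ≤ C * (1 + (N : ℝ)) ^ p) :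
    Dmp (fun k => φ (nsq k)) := by
  refine ⟨fun k => h0 _, fun k => by rw [nsq_neg], ?_⟩
  obtain ⟨C, p, hC⟩ := h1
  refine ⟨|C|, 2 * p, fun k => ?_⟩
  have h1 := hC (nsq k) (nsq_nn k)
  have h2 : C * (1 + (nsq k : ℝ)) ^ p ≤ |C| * (1 + (nsq k : ℝ)) ^ p := by
    have : (0 : ℝ) ≤ (nsq k : ℝ) := by exact_mod_cast nsq_nn k
    have := le_abs_self C
    gcongr
  refine h1.trans (h2.trans ?_)
  rw [pow_mul]
  have h3 := len_sq' k
  have h4 := len_nn k
  have h5 : 1 + (nsq k : ℝ) ≤ (1 + len k) ^ 2 := by nlinarith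
  have h6 : (0 : ℝ) ≤ 1 + (nsq k : ℝ) := by
    have : (0 : ℝ) ≤ (nsq k : ℝ) := by exact_mod_cast nsq_nn k
    linarith
  gcongr

lemma mul_mu (m : ℕ) (k : Z3) : Mul m (mu m k) := fun i => dvd_mul_right _ _

lemma nsq_mu (m : ℕ) (k : Z3) : nsq (mu m k) = m ^ 2 * nsq k := by
  unfold nsq mu
  rw [Finset.mul_sum]
  exact Finset.sum_congr rfl fun j _ => by ring

lemma div_mu {m : ℕ} (hm : 0 < m) (k : Z3) : (fun i => mu m k i / (m : ℤ)) = k := by
  funext i
  unfold mu
  exact Int.mul_ediv_cancel_left _ (by exact_mod_cast hm.ne')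

lemma mu_div {m : ℕ} {k : Z3} (h : Mul m k) : mu m (fun i => k i / (m : ℤ)) = k := by
  funext i
  unfold mu
  exact Int.mul_ediv_cancel' (h i)

lemma len_mu (m : ℕ) (k : Z3) : len (mu m k) = m * len k := by
  have h1 : len (mu m k) ^ 2 = (m * len k) ^ 2 := by
    rw [len_sq', nsq_mu, mul_pow, len_sq']
    push_cast
    ring
  have h2 : (0 : ℝ) ≤ m * len k := mul_nonneg (Nat.cast_nonneg m) (len_nn k)
  exact (pow_left_inj₀ (len_nn _) h2 (by norm_num)).1 h1

theorem t_DDL : S_DDL := by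
  intro hD m c hm
  classical
  refine ⟨?_, ?_, ?_, ?_⟩
  · funext j
    unfold ddl
    rw [if_pos (show Mul m 0 from fun i => dvd_zero _)]
    have : (fun i => (0 : Z3) i / (m : ℤ)) = 0 := by
      funext i
      simp
    rw [this, hD.zero]
    simp
  · intro k j
    unfold ddl
    by_cases h : Mul m k
    · have h' : Mul m (-k) := fun i => by
        rw [Pi.neg_apply]
        exact (dvd_neg).2 (h i)
      rw [if_pos h, if_pos h']
      have : (fun i => (-k) i / (m : ℤ)) = -(fun i => k i / (m : ℤ)) := by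
        funext i
        rw [Pi.neg_apply, Pi.neg_apply, Int.neg_ediv_of_dvd (h i)]
      rw [this, hD.real, map_mul, Complex.conj_ofReal]
    · have h' : ¬ Mul m (-k) := fun h2 => h fun i => by
        have := h2 i
        rw [Pi.neg_apply] at this
        exact (dvd_neg).1 this
      rw [if_neg h, if_neg h', map_zero]
  · intro k
    by_cases h : Mul m k
    · have e1 : dt (kc k) (ddl m c k) =
          (m : ℂ) * c * dt (kc (fun i => k i / (m : ℤ))) (dat (fun i => k i / (m : ℤ))) := by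
        unfold dt
        rw [Finset.mul_sum]
        refine Finset.sum_congr rfl fun j _ => ?_
        unfold ddl kc
        rw [if_pos h]
        have e2 : ((k j : ℤ) : ℂ) = (m : ℂ) * ((k j / (m : ℤ) : ℤ) : ℂ) := by
          have := Int.mul_ediv_cancel' (h j)
          exact_mod_cast this.symm
        rw [e2]
        ring
      rw [e1, hD.div, mul_zero]
    · unfold dt
      refine Finset.sum_eq_zero fun j _ => ?_
      unfold ddl
      rw [if_neg h, mul_zero]
  · intro q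
    obtain ⟨M, hM⟩ := hD.smooth q
    refine ⟨|c| * (m : ℝ) ^ q * |M|, fun k j => ?_⟩
    unfold ddl
    by_cases h : Mul m k
    · rw [if_pos h, norm_mul, Complex.norm_real, Real.norm_eq_abs]
      have e1 : len k = m * len (fun i => k i / (m : ℤ)) := by
        rw [← len_mu, mu_div h]
      rw [e1, mul_pow]
      calc (m : ℝ) ^ q * len (fun i => k i / (m : ℤ)) ^ q *
            (|c| * ‖dat (fun i => k i / (m : ℤ)) j‖)
          = |c| * (m : ℝ) ^ q * (len (fun i => k i / (m : ℤ)) ^ q *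
            ‖dat (fun i => k i / (m : ℤ)) j‖) := by ring
        _ ≤ |c| * (m : ℝ) ^ q * |M| := by
            gcongr
            exact (hM _ j).trans (le_abs_self M)
    · rw [if_neg h, norm_zero, mul_zero]
      positivity

theorem t_MAINY_of (hN : S_NOGO3) (hM : S_MAX) (hL : S_LOC) (hU : S_UNQ) (hG : S_GLU)
    (hE : S_ENR) (hS : S_SCL) (hD : S_DATV) (hP : S_PER) (hUd : S_UND) : S_MAINY := by
  intro s σ hs2 hσ
  obtain ⟨ν₀, ε₀, T₀, hν, hε, hT, h⟩ := hN s σ hs2 hσ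
  refine ⟨ν₀, ε₀, T₀, hν, hε, hT, fun m a φ hm ha h0 hsm hlow hpol => ?_⟩
  have hd : Dmp (fun k => φ (nsq k)) := dmp_of h0 hpol
  have hF : IsField (ddl m (a / m)) := t_DDL hD.1 m (a / m) hm
  have hm0 : (m : ℝ) ≠ 0 := by exact_mod_cast hm.ne'
  have hng : ∀ (T' : ℝ) (W : ℝ → Coef), 0 < T' → Sol (fun k => φ (nsq k)) T' W →
      W 0 = ddl m (a / m) → T' ≤ T₀ / a := by
    intro T' W hT' hW hW0
    have hai : 0 < a⁻¹ := inv_pos.2 ha
    have hper := hP hU _ T' W m hm hd hW (fun k hk => by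
      rw [hW0]
      funext j
      exact if_neg hk)
    have hV := hUd _ T' W m hm hW hper
    have h1 := hS _ a⁻¹ T' _ hai hV
    have e1 : (fun k => a⁻¹ * φ (nsq (mu m k))) = fun k => (fun N => a⁻¹ * φ (m ^ 2 * N)) (nsq k) := by
      funext k
      rw [nsq_mu]
    rw [e1] at h1
    have h2 : Lac3 s σ ν₀ ε₀ (fun N => a⁻¹ * φ (m ^ 2 * N)) := by
      refine ⟨fun N => mul_nonneg hai.le (h0 _), fun N hN => ?_, fun N hN hl => ?_, ?_⟩
      · have h3 := hsm N hN
        calc a⁻¹ * φ (m ^ 2 * N) ≤ a⁻¹ * (ε₀ * a * (N : ℝ) ^ σ) := by gcongr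
          _ = ε₀ * (N : ℝ) ^ σ := by field_simp
      · have h3 := hlow N hN hl
        calc ν₀ * (N : ℝ) ^ s = a⁻¹ * (ν₀ * a * (N : ℝ) ^ s) := by
              field_simp
          _ ≤ a⁻¹ * φ (m ^ 2 * N) := by gcongr
      · obtain ⟨C, p, hC⟩ := hpol
        refine ⟨a⁻¹ * (|C| * (1 + (m : ℝ) ^ 2) ^ p), p, fun N hN => ?_⟩
        rw [mul_assoc]
        apply mul_le_mul_of_nonneg_left _ hai.le
        have hN' : (0 : ℝ) ≤ (N : ℝ) := by exact_mod_cast hN
        have h5 := hC (m ^ 2 * N) (by positivity)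
        refine h5.trans ?_
        push_cast
        rw [mul_assoc, ← mul_pow]
        have h6 : 1 + (m : ℝ) ^ 2 * (N : ℝ) ≤ (1 + (m : ℝ) ^ 2) * (1 + (N : ℝ)) := by
          nlinarith [sq_nonneg (m : ℝ)]
        have h7 : C ≤ |C| := le_abs_self C
        gcongr
    have h4 := h (fun N => a⁻¹ * φ (m ^ 2 * N)) (T' / a⁻¹) _ h2 (by positivity) h1 (by
      funext k j
      show ((a⁻¹ : ℝ) : ℂ) * ((m : ℂ) * W (a⁻¹ * 0) (mu m k) j) = dat k j
      rw [mul_zero, hW0]
      have e2 : ddl m (a / m) (mu m k) j = ((a / m : ℝ) : ℂ) * dat k j := by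
        unfold ddl
        rw [if_pos (mul_mu m k), div_mu hm]
      rw [e2, ← mul_assoc, ← mul_assoc]
      have e3 : ((a⁻¹ : ℝ) : ℂ) * (m : ℂ) * ((a / m : ℝ) : ℂ) = 1 := by
        have : a⁻¹ * (m : ℝ) * (a / m) = 1 := by field_simp
        exact_mod_cast this
      rw [e3, one_mul])
    rw [le_div_iff₀ ha]
    rwa [div_inv_eq_mul] at h4
  obtain ⟨T, V, hT1, hT2, hV, hV0, hmax, hbl⟩ := hM hL hU hG _ _ (T₀ / a) hd hF hng
  refine ⟨T, V, hT1, hT2, hV, hV0, ?_, ?_, hbl⟩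
  · intro T' W hT' hW hW0
    exact hmax T' W hT' hW (hW0.trans hV0)
  · intro t ht
    exact (hE _ T V hd hV t ht).2.2

end Pool.Agent.Y5.V
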