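import Pool.Agent.Y6.M.Defs
import Pool.Agent.Y6.K.Stm

/-!
Definitions for the Euler equations with damping `φ(-Δ)`: a nonnegative function of the Laplacian
which vanishes on a lacunary set of eigenvalues (periodic fields, Fourier coefficients).
-/

open Set Filter Topology
open scoped ComplexConjugate

set_option autoImplicit false

namespace Pool.Agent.Y5.V

open Pool.Agent.Y6.M (Z3 C3 Coef dt kc cj nsq len adv leray IsField energy)

/-- `|a|²` -/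
noncomputable def sq (a : C3) : ℝ := ∑ j, ‖a j‖ ^ 2

/-- `|a|` -/
noncomputable def nm (a : C3) : ℝ := √(sq a)

/-- Nonnegative, even, polynomially bounded multipliers. -/
structure Dmp (d : Z3 → ℝ) : Prop where
  nonneg : ∀ k, 0 ≤ d k
  even : ∀ k, d (-k) = d k
  poly : ∃ (C : ℝ) (p : ℕ), ∀ k, d k ≤ C * (1 + len k) ^ p

/-- the right hand side `- d u - P (u · ∇) u` -/
noncomputable def rhs (d : Z3 → ℝ) (V : Coef) (k : Z3) (j : Fin 3) : ℂ :=
  -((d k : ℝ) : ℂ) * V k j - leray k (adv V k) j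

/-- Smooth solutions on `[0, T)` of `∂ₜ u + (u · ∇) u + ∇ p = - d u`, `div u = 0`
(real fields of mean zero on the torus `ℝ³ / ℤ³`, all derivatives bounded on `[0, T']` for
`T' < T`) -/
structure Sol (d : Z3 → ℝ) (T : ℝ) (V : ℝ → Coef) : Prop where
  field : ∀ t ∈ Ico 0 T, IsField (V t)
  reg : ∀ q : ℕ, ∀ T' < T, ∃ M, ∀ t ∈ Icc 0 T', ∀ k j, len k ^ q * ‖V t k j‖ ≤ M
  eqn : ∀ k, k ≠ 0 → ∀ j, ∀ t ∈ Ico 0 T,
    HasDerivWithinAt (fun s => V s k j) (rhs d (V t) k j) (Ico 0 T) t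

/-- Smooth solutions on `[0, δ]` -/
structure CSol (d : Z3 → ℝ) (δ : ℝ) (V : ℝ → Coef) : Prop where
  field : ∀ t ∈ Icc 0 δ, IsField (V t)
  reg : ∀ q : ℕ, ∃ M, ∀ t ∈ Icc 0 δ, ∀ k j, len k ^ q * ‖V t k j‖ ≤ M
  eqn : ∀ k, k ≠ 0 → ∀ j, ∀ t ∈ Icc 0 δ,
    HasDerivWithinAt (fun s => V s k j) (rhs d (V t) k j) (Icc 0 δ) t

/-- Solutions on `[0, δ]` of the truncated system (frequencies `|k|² ≤ R`) -/
structure GSol (d : Z3 → ℝ) (R : ℕ) (δ : ℝ) (V0 : Coef) (Z : ℝ → Coef) : Prop where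
  off : ∀ k, (R : ℤ) < nsq k → ∀ t, Z t k = 0
  zero : ∀ t, Z t 0 = 0
  real : ∀ t ∈ Icc 0 δ, ∀ k j, Z t (-k) j = conj (Z t k j)
  div : ∀ t ∈ Icc 0 δ, ∀ k, dt (kc k) (Z t k) = 0
  eqn : ∀ k, k ≠ 0 → nsq k ≤ R → ∀ j, ∀ t ∈ Icc 0 δ,
    HasDerivWithinAt (fun s => Z s k j) (rhs d (Z t) k j) (Icc 0 δ) t
  init : ∀ k, nsq k ≤ R → Z 0 k = V0 k

/-- the square of the `H^m` norm -/
noncomputable def hE (m : ℕ) (V : Coef) : ℝ := ∑' k, len k ^ (2 * m) * sq (V k)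

/-- the sum of the moduli of the coefficients of the gradient -/
noncomputable def hN (V : Coef) : ℝ := ∑' k, len k * nm (V k)

/-! ### Symmetric fields -/

/-- Fields with the symmetries of the cube: `u (g y) = g (u y)` for all permutations of the
coordinates and all changes of signs `g`. -/
structure Sy (V : Coef) : Prop where
  perm : ∀ (σ : Equiv.Perm (Fin 3)) (k : Z3) (i : Fin 3), V (fun j => k (σ j)) i = V k (σ i)
  sign : ∀ ε : Fin 3 → ℤ, (∀ j, ε j = 1 ∨ ε j = -1) → ∀ (k : Z3) (i : Fin 3),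
    V (fun j => ε j * k j) i = (ε i : ℂ) * V k i

/-- the real coefficients of the sine series -/
noncomputable def wOf (V : Coef) : Pool.Agent.Y5.D.Fam :=
  fun k => WithLp.toLp 2 (fun j => (Complex.I * V k j).re)

/-- the amplitudes of the modes of the chain -/
noncomputable def xc (V : Coef) (n : ℕ) : ℝ :=
  Pool.Agent.Y5.D.pair (wOf V) (Pool.Agent.Y6.K.Em n)

/-- the eigenvalues without damping, `4^(3 j) {11, 40, 88, 208}` -/
def lac (N : ℤ) : Prop :=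
  ∃ j : ℕ, N = 11 * 64 ^ j ∨ N = 40 * 64 ^ j ∨ N = 88 * 64 ^ j ∨ N = 208 * 64 ^ j

/-- The damping `φ` vanishes on the lacunary set, and `φ N ≥ ν N^(5/6)` elsewhere. -/
structure Lac (ν : ℝ) (φ : ℤ → ℝ) : Prop where
  nonneg : ∀ N, 0 ≤ φ N
  zero : ∀ N, lac N → φ N = 0
  low : ∀ N, 0 < N → ¬ lac N → ν * (N : ℝ) ^ (5 / 6 : ℝ) ≤ φ N
  poly : ∃ (C : ℝ) (p : ℕ), ∀ N, 0 ≤ N → φ N ≤ C * (1 + (N : ℝ)) ^ p

/-- the square of the `H^(5/6)` norm of the damped part -/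
noncomputable def eo (V : Coef) : ℝ :=
  open Classical in
  ∑' k, if lac (nsq k) then 0 else (nsq k : ℝ) ^ (5 / 6 : ℝ) * sq (V k)

/-- the initial field: `û(k) = - i a(k) / √528` for `|k|² = 11`, `a(k)_j = 3 k_j` if `|k_j| = 1`,
`a(k)_j = - 2/3 k_j` if `|k_j| = 3` -/
noncomputable def dat : Coef := fun k j =>
  if nsq k = 11 then
    -Complex.I * ((if |k j| = 1 then 3 * (k j : ℝ) else -(2 / 3) * (k j : ℝ)) / √528 : ℝ)
  else 0

end Pool.Agent.Y5.V
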