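import Pool.Agent.Y5.V.Stm

/-! Uniqueness of smooth solutions (proof by helper417, copy of Y417/VL/Unq.lean without notation). -/

open Set Filter Topology
open scoped ComplexConjugate

set_option autoImplicit false

namespace Pool.Agent.Y5.V.UNQ

open Pool.Agent.Y6.M (Z3 C3 Coef dt kc cj nsq len adv leray IsField energy)
open Pool.Agent.Y5.V (Sol Dmp rhs S_UNQ S_SUM)


/-! ### Lengths -/

lemma nsq_nonneg (k : Z3) : 0 ≤ nsq k := Finset.sum_nonneg fun _ _ => sq_nonneg _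

lemma len_nonneg (k : Z3) : 0 ≤ len k := Real.sqrt_nonneg _

lemma len_zero : len 0 = 0 := by simp [len, nsq]

lemma one_le_len {k : Z3} (hk : k ≠ 0) : 1 ≤ len k := by
  have h : 1 ≤ nsq k := by
    by_contra h
    apply hk
    have h0 : nsq k = 0 := by have := nsq_nonneg k; omega
    funext j
    have h1 := (Finset.sum_eq_zero_iff_of_nonneg (fun i _ => sq_nonneg (k i))).1 h0 j
      (Finset.mem_univ j)
    simpa using h1
  rw [len]
  apply Real.one_le_sqrt.2
  exact_mod_cast h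

lemma norm_kc_le (k : Z3) : ‖kc k‖ ≤ len k := by
  refine (pi_norm_le_iff_of_nonneg (len_nonneg k)).2 fun j => ?_
  rw [kc, len]
  apply Real.le_sqrt_of_sq_le
  rw [← Complex.ofReal_intCast, Complex.norm_real, Real.norm_eq_abs, sq_abs]
  have : k j ^ 2 ≤ nsq k := Finset.single_le_sum (f := fun j => k j ^ 2)
    (fun i _ => sq_nonneg (k i)) (Finset.mem_univ j)
  exact_mod_cast this

/-! ### Products of vectors -/

/-- the hermitian product -/
noncomputable def ip (a b : C3) : ℂ := ∑ j, conj (a j) * b j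

lemma dt_le (a b : C3) : ‖dt a b‖ ≤ 3 * ‖a‖ * ‖b‖ := by
  rw [dt]
  refine (norm_sum_le _ _).trans ?_
  have : ∀ j ∈ (Finset.univ : Finset (Fin 3)), ‖a j * b j‖ ≤ ‖a‖ * ‖b‖ := fun j _ => by
    rw [norm_mul]
    exact mul_le_mul (norm_le_pi_norm a j) (norm_le_pi_norm b j) (norm_nonneg _) (norm_nonneg _)
  refine (Finset.sum_le_sum this).trans ?_
  simp [mul_assoc]

lemma ip_le (a b : C3) : ‖ip a b‖ ≤ 3 * ‖a‖ * ‖b‖ := by
  rw [ip]
  refine (norm_sum_le _ _).trans ?_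
  have : ∀ j ∈ (Finset.univ : Finset (Fin 3)), ‖conj (a j) * b j‖ ≤ ‖a‖ * ‖b‖ := fun j _ => by
    rw [norm_mul, RCLike.norm_conj]
    exact mul_le_mul (norm_le_pi_norm a j) (norm_le_pi_norm b j) (norm_nonneg _) (norm_nonneg _)
  refine (Finset.sum_le_sum this).trans ?_
  simp [mul_assoc]

lemma ip_add (a b c : C3) : ip a (b + c) = ip a b + ip a c := by
  simp only [ip, Pi.add_apply, mul_add, Finset.sum_add_distrib]

lemma ip_sub (a b c : C3) : ip a (b - c) = ip a b - ip a c := by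
  simp only [ip, Pi.sub_apply, mul_sub, Finset.sum_sub_distrib]

lemma ip_conj (a b : C3) : conj (ip a b) = ip b a := by
  rw [ip, ip, map_sum]
  refine Finset.sum_congr rfl fun j _ => ?_
  rw [map_mul, Complex.conj_conj, mul_comm]

lemma ip_self (a : C3) : ip a a = ((Pool.Agent.Y5.V.sq a : ℝ) : ℂ) := by
  rw [ip, Pool.Agent.Y5.V.sq, Complex.ofReal_sum]
  refine Finset.sum_congr rfl fun j _ => ?_
  rw [mul_comm, Complex.mul_conj, Complex.normSq_eq_norm_sq]

lemma sq_nonneg' (a : C3) : 0 ≤ Pool.Agent.Y5.V.sq a := Finset.sum_nonneg fun _ _ => sq_nonneg _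

lemma norm_sq_le (a : C3) : ‖a‖ ^ 2 ≤ Pool.Agent.Y5.V.sq a := by
  have h : ‖a‖ ≤ √(Pool.Agent.Y5.V.sq a) := by
    refine (pi_norm_le_iff_of_nonneg (Real.sqrt_nonneg _)).2 fun j => ?_
    apply Real.le_sqrt_of_sq_le
    exact Finset.single_le_sum (f := fun j => ‖a j‖ ^ 2) (fun i _ => sq_nonneg _)
      (Finset.mem_univ j)
  calc ‖a‖ ^ 2 ≤ √(Pool.Agent.Y5.V.sq a) ^ 2 := pow_le_pow_left₀ (norm_nonneg _) h 2
    _ = Pool.Agent.Y5.V.sq a := Real.sq_sqrt (sq_nonneg' a)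

lemma sq_le (a : C3) : Pool.Agent.Y5.V.sq a ≤ 3 * ‖a‖ ^ 2 := by
  have : ∀ j ∈ (Finset.univ : Finset (Fin 3)), ‖a j‖ ^ 2 ≤ ‖a‖ ^ 2 := fun j _ =>
    pow_le_pow_left₀ (norm_nonneg _) (norm_le_pi_norm a j) 2
  refine (Finset.sum_le_sum this).trans ?_
  simp

lemma sq_eq_zero {a : C3} (h : Pool.Agent.Y5.V.sq a ≤ 0) : a = 0 := by
  have h1 := norm_sq_le a
  have h2 : ‖a‖ = 0 := by nlinarith [norm_nonneg a]
  exact norm_eq_zero.1 h2

/-! ### Rapidly decreasing fields -/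

/-- the weight -/
noncomputable def sw (k : Z3) : ℝ := if k = 0 then (0 : ℝ) else (len k ^ 4)⁻¹

lemma sw_nonneg (k : Z3) : 0 ≤ sw k := by
  rw [sw]
  split_ifs
  · exact le_rfl
  · exact inv_nonneg.2 (pow_nonneg (len_nonneg k) _)

lemma sw_le (k : Z3) : sw k ≤ 1 := by
  rw [sw]
  split_ifs with h
  · exact zero_le_one
  · exact inv_le_one_of_one_le₀ (one_le_pow₀ (one_le_len h))

/-- decay -/
structure Dc (M : ℝ) (X : Coef) : Prop where
  z : X 0 = 0
  d : ∀ k, len k ^ 5 * ‖X k‖ ≤ M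

lemma Dc.M0 {M : ℝ} {X : Coef} (h : Dc M X) : 0 ≤ M := by
  have := h.d 0
  rwa [h.z, norm_zero, mul_zero] at this

lemma Dc.len_le {M : ℝ} {X : Coef} (h : Dc M X) (k : Z3) : len k * ‖X k‖ ≤ M * sw k := by
  rw [sw]
  split_ifs with hk
  · rw [hk, h.z, norm_zero, mul_zero, mul_zero]
  · have h1 := one_le_len hk
    have h2 : 0 < len k ^ 4 := by positivity
    rw [← div_eq_mul_inv, le_div_iff₀ h2]
    calc len k * ‖X k‖ * len k ^ 4 = len k ^ 5 * ‖X k‖ := by ring
      _ ≤ M := h.d k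

lemma Dc.le {M : ℝ} {X : Coef} (h : Dc M X) (k : Z3) : ‖X k‖ ≤ M * sw k := by
  by_cases hk : k = 0
  · rw [hk, h.z, norm_zero]
    exact mul_nonneg h.M0 (sw_nonneg _)
  · refine le_trans ?_ (h.len_le k)
    have := one_le_len hk
    nlinarith [norm_nonneg (X k)]

lemma Dc.sup {M : ℝ} {X : Coef} (h : Dc M X) (k : Z3) : ‖X k‖ ≤ M :=
  (h.le k).trans (mul_le_of_le_one_right h.M0 (sw_le k))

lemma Dc.sub {M M' : ℝ} {X Y : Coef} (h : Dc M X) (h' : Dc M' Y) :
    Dc (M + M') (fun k => X k - Y k) := by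
  refine ⟨by rw [h.z, h'.z, sub_zero], fun k => ?_⟩
  have h1 := h.d k
  have h2 := h'.d k
  have h3 : len k ^ 5 * ‖X k - Y k‖ ≤ len k ^ 5 * (‖X k‖ + ‖Y k‖) :=
    mul_le_mul_of_nonneg_left (norm_sub_le _ _) (pow_nonneg (len_nonneg k) _)
  linarith

variable (hS : Summable sw)

/-- the sum of the weights -/
noncomputable def Sg : ℝ := ∑' k, sw k

lemma Sg_nonneg : 0 ≤ Sg := tsum_nonneg sw_nonneg

/-! ### The quadratic term -/

/-- the bilinear term -/
noncomputable def bl (Y U : Coef) (k : Z3) : C3 := fun j =>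
  ∑' q : Z3, 2 * Real.pi * Complex.I * dt (Y (k - q)) (kc q) * U q j

lemma adv_eq (V : Coef) (k : Z3) : adv V k = bl V V k := by
  funext j
  rw [adv, bl, ← (Equiv.subLeft k).tsum_eq]
  refine tsum_congr fun q => ?_
  simp only [Equiv.subLeft_apply, sub_sub_cancel]

lemma co_le' (Y : Coef) (k q : Z3) :
    ‖2 * Real.pi * Complex.I * dt (Y (k - q)) (kc q)‖ ≤ 6 * Real.pi * ‖Y (k - q)‖ * len q := by
  have h1 := dt_le (Y (k - q)) (kc q)
  have h2 : ‖(2 * Real.pi * Complex.I : ℂ)‖ = 2 * Real.pi := by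
    rw [norm_mul, norm_mul, Complex.norm_I, mul_one, Complex.norm_real, Real.norm_of_nonneg
      Real.pi_pos.le]
    simp
  rw [norm_mul, h2]
  have h3 : 3 * ‖Y (k - q)‖ * ‖kc q‖ ≤ 3 * ‖Y (k - q)‖ * len q :=
    mul_le_mul_of_nonneg_left (norm_kc_le q) (by positivity)
  have := Real.pi_pos
  calc 2 * Real.pi * ‖dt (Y (k - q)) (kc q)‖ ≤ 2 * Real.pi * (3 * ‖Y (k - q)‖ * len q) :=
        mul_le_mul_of_nonneg_left (h1.trans h3) (by positivity)
    _ = _ := by ring

lemma co_le {M : ℝ} {Y : Coef} (hY : ∀ k, ‖Y k‖ ≤ M) (k q : Z3) :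
    ‖2 * Real.pi * Complex.I * dt (Y (k - q)) (kc q)‖ ≤ 6 * Real.pi * M * len q := by
  refine (co_le' Y k q).trans (mul_le_mul_of_nonneg_right ?_ (len_nonneg q))
  have := Real.pi_pos
  exact mul_le_mul_of_nonneg_left (hY _) (by positivity)

lemma tm_le {M M' : ℝ} {Y U : Coef} (hY : ∀ k, ‖Y k‖ ≤ M) (hU : Dc M' U) (k q : Z3) (j : Fin 3) :
    ‖2 * Real.pi * Complex.I * dt (Y (k - q)) (kc q) * U q j‖ ≤ 6 * Real.pi * M * M' * sw q := by
  rw [norm_mul]
  have h0 : 0 ≤ M := (norm_nonneg _).trans (hY 0)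
  have hp := Real.pi_pos
  calc _ ≤ (6 * Real.pi * M * len q) * ‖U q‖ :=
        mul_le_mul (co_le hY k q) (norm_le_pi_norm _ _) (norm_nonneg _)
          (mul_nonneg (by positivity) (len_nonneg q))
    _ = 6 * Real.pi * M * (len q * ‖U q‖) := by ring
    _ ≤ 6 * Real.pi * M * (M' * sw q) :=
        mul_le_mul_of_nonneg_left (hU.len_le q) (by positivity)
    _ = _ := by ring

include hS

lemma tm_summ {M M' : ℝ} {Y U : Coef} (hY : ∀ k, ‖Y k‖ ≤ M) (hU : Dc M' U) (k : Z3) (j : Fin 3) :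
    Summable fun q => 2 * Real.pi * Complex.I * dt (Y (k - q)) (kc q) * U q j :=
  Summable.of_norm_bounded (hS.mul_left _) fun q => tm_le hY hU k q j

lemma bl_le {M M' : ℝ} {Y U : Coef} (hY : ∀ k, ‖Y k‖ ≤ M) (hU : Dc M' U) (k : Z3) :
    ‖bl Y U k‖ ≤ 6 * Real.pi * M * M' * Sg := by
  have h0 : 0 ≤ M := (norm_nonneg _).trans (hY 0)
  have hp := Real.pi_pos
  have h1 := hU.M0
  have h2 := Sg_nonneg
  refine (pi_norm_le_iff_of_nonneg (by positivity)).2 fun j => ?_
  exact tsum_of_norm_bounded (hS.hasSum.mul_left _) fun q => tm_le hY hU k q j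

lemma bl_sub {M : ℝ} {V W : Coef} (hV : Dc M V) (hW : Dc M W) (k : Z3) :
    bl V V k - bl W W k = bl (fun k => V k - W k) V k + bl W (fun k => V k - W k) k := by
  have hX := hV.sub hW
  funext j
  have e1 := tm_summ hS hX.sup hV k j
  have e2 := tm_summ hS hW.sup hX k j
  simp only [Pi.sub_apply] at e2
  simp only [Pi.sub_apply, Pi.add_apply, bl]
  rw [← (tm_summ hS hV.sup hV k j).tsum_sub (tm_summ hS hW.sup hW k j), ← e1.tsum_add e2]
  refine tsum_congr fun q => ?_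
  have h1 : dt (V (k - q) - W (k - q)) (kc q) = dt (V (k - q)) (kc q) - dt (W (k - q)) (kc q) := by
    simp only [dt, Pi.sub_apply, sub_mul, Finset.sum_sub_distrib]
  rw [h1]
  ring

omit hS in
/-- the family of the trilinear form -/
noncomputable def tf (Y U X : Coef) (x : Z3 × Z3) : ℂ :=
  2 * Real.pi * Complex.I * dt (Y (x.1 - x.2)) (kc x.2) * ip (X x.1) (U x.2)

omit hS in
lemma tf_le {M : ℝ} {Y U X : Coef} (hY : ∀ k, ‖Y k‖ ≤ M) (x : Z3 × Z3) :
    ‖tf Y U X x‖ ≤ 18 * Real.pi * M * (‖X x.1‖ * (len x.2 * ‖U x.2‖)) := by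
  rw [tf, norm_mul]
  have h0 : 0 ≤ M := (norm_nonneg _).trans (hY 0)
  have hp := Real.pi_pos
  calc _ ≤ (6 * Real.pi * M * len x.2) * (3 * ‖X x.1‖ * ‖U x.2‖) :=
        mul_le_mul (co_le hY _ _) (ip_le _ _) (norm_nonneg _)
          (mul_nonneg (by positivity) (len_nonneg _))
    _ = _ := by ring

lemma sw_summ : Summable fun x : Z3 × Z3 => sw x.1 * sw x.2 :=
  hS.mul_of_nonneg hS sw_nonneg sw_nonneg

lemma tf_summ {M M' M'' : ℝ} {Y U X : Coef} (hY : ∀ k, ‖Y k‖ ≤ M) (hU : Dc M' U) (hX : Dc M'' X) :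
    Summable (tf Y U X) := by
  refine Summable.of_norm_bounded ((sw_summ hS).mul_left (18 * Real.pi * M * (M'' * M')))
    fun x => ?_
  have h0 : 0 ≤ M := (norm_nonneg _).trans (hY 0)
  have hp := Real.pi_pos
  refine (tf_le hY x).trans ?_
  have h1 : ‖X x.1‖ * (len x.2 * ‖U x.2‖) ≤ (M'' * sw x.1) * (M' * sw x.2) :=
    mul_le_mul (hX.le _) (hU.len_le _) (mul_nonneg (len_nonneg _) (norm_nonneg _))
      (mul_nonneg hX.M0 (sw_nonneg _))
  calc _ ≤ 18 * Real.pi * M * ((M'' * sw x.1) * (M' * sw x.2)) :=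
        mul_le_mul_of_nonneg_left h1 (by positivity)
    _ = _ := by ring

lemma ip_bl {M M' : ℝ} {Y U : Coef} (hY : ∀ k, ‖Y k‖ ≤ M) (hU : Dc M' U) (X : Coef) (k : Z3) :
    ip (X k) (bl Y U k) = ∑' q, tf Y U X (k, q) := by
  rw [ip]
  have h1 : ∀ j, conj (X k j) * bl Y U k j =
      ∑' q, conj (X k j) * (2 * Real.pi * Complex.I * dt (Y (k - q)) (kc q) * U q j) := by
    intro j
    rw [tsum_mul_left, bl]
  simp_rw [h1]
  rw [← Summable.tsum_finsetSum fun j _ => (tm_summ hS hY hU k j).mul_left _]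
  refine tsum_congr fun q => ?_
  rw [tf, ip, Finset.mul_sum]
  refine Finset.sum_congr rfl fun j _ => ?_
  ring

lemma sum_bl {M M' M'' : ℝ} {Y U X : Coef} (hY : ∀ k, ‖Y k‖ ≤ M) (hU : Dc M' U) (hX : Dc M'' X) :
    HasSum (fun k => ip (X k) (bl Y U k)) (∑' x, tf Y U X x) := by
  have h := (tf_summ hS hY hU hX).hasSum.prod_fiberwise fun k =>
    ((tf_summ hS hY hU hX).prod_factor k).hasSum
  have h1 : (fun k => ip (X k) (bl Y U k)) = fun k => ∑' q, tf Y U X (k, q) :=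
    funext fun k => ip_bl hS hY hU X k
  rw [h1]
  exact h

omit hS in
lemma tf_conj {W X : Coef} (hr : ∀ k j, W (-k) j = conj (W k j))
    (hd : ∀ k, dt (kc k) (W k) = 0) (x : Z3 × Z3) :
    conj (tf W X X x) = -tf W X X (Equiv.prodComm Z3 Z3 x) := by
  obtain ⟨k, q⟩ := x
  simp only [tf, Equiv.prodComm_apply, Prod.swap_prod_mk, map_mul, ip_conj, Complex.conj_I,
    Complex.conj_ofReal]
  have h1 : conj (dt (W (k - q)) (kc q)) = dt (W (q - k)) (kc q) := by
    rw [dt, dt, map_sum]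
    refine Finset.sum_congr rfl fun j _ => ?_
    have h2 : q - k = -(k - q) := by abel
    rw [h2, hr, map_mul]
    simp [kc]
  have h2 : dt (W (q - k)) (kc q) = dt (W (q - k)) (kc k) := by
    have h3 := hd (q - k)
    have h4 : dt (kc (q - k)) (W (q - k)) = dt (W (q - k)) (kc q) - dt (W (q - k)) (kc k) := by
      simp only [dt, kc, Pi.sub_apply, Int.cast_sub, sub_mul, Finset.sum_sub_distrib]
      congr 1 <;> exact Finset.sum_congr rfl fun j _ => mul_comm _ _
    rw [h4] at h3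
    exact sub_eq_zero.1 h3
  rw [h1, h2]
  simp only [map_ofNat]
  ring

lemma anti {M M' : ℝ} {W X : Coef} (hW : Dc M W) (hX : Dc M' X)
    (hr : ∀ k j, W (-k) j = conj (W k j)) (hd : ∀ k, dt (kc k) (W k) = 0) :
    (∑' x, tf W X X x).re = 0 := by
  have h1 := (tf_summ hS hW.sup hX hX).hasSum
  have h2 : HasSum (fun x => conj (tf W X X x)) (conj (∑' x, tf W X X x)) :=
    (Complex.hasSum_conj').2 h1
  have h3 : HasSum (fun x => conj (tf W X X x)) (-∑' x, tf W X X x) := by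
    have h4 := ((Equiv.prodComm Z3 Z3).hasSum_iff.2 h1).neg
    have h5 : (fun x => conj (tf W X X x)) = fun x => -(tf W X X ∘ (Equiv.prodComm Z3 Z3)) x :=
      funext fun x => tf_conj hr hd x
    rw [h5]
    exact h4
  have h4 := h2.unique h3
  have h5 := congrArg Complex.re h4
  rw [Complex.conj_re, Complex.neg_re] at h5
  linarith

omit hS in
/-- the shear -/
def shr : Z3 × Z3 ≃ Z3 × Z3 where
  toFun x := (x.1 - x.2, x.2)
  invFun x := (x.1 + x.2, x.2)
  left_inv x := by simp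
  right_inv x := by simp

lemma sq_summ {M : ℝ} {X : Coef} (hX : Dc M X) : Summable fun k => Pool.Agent.Y5.V.sq (X k) := by
  refine Summable.of_nonneg_of_le (fun k => sq_nonneg' _) (fun k => ?_) (hS.mul_left (3 * M * M))
  refine (sq_le _).trans ?_
  have h1 := hX.le k
  have h2 := hX.sup k
  have h3 := hX.M0
  have h4 : ‖X k‖ ^ 2 ≤ M * (M * sw k) := by
    rw [pow_two]
    exact mul_le_mul h2 h1 (norm_nonneg _) h3
  linarith

lemma t1 {M M' : ℝ} {V X : Coef} (hV : Dc M V) (hX : Dc M' X) :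
    ‖∑' x, tf X V X x‖ ≤ 18 * Real.pi * M * Sg * ∑' k, Pool.Agent.Y5.V.sq (X k) := by
  have hp := Real.pi_pos
  have hE := sq_summ hS hX
  have hM := hV.M0
  have s1 : Summable fun x : Z3 × Z3 => Pool.Agent.Y5.V.sq (X x.1) * sw x.2 :=
    hE.mul_of_nonneg hS (fun _ => sq_nonneg' _) sw_nonneg
  have s2 : HasSum (fun x : Z3 × Z3 => Pool.Agent.Y5.V.sq (X x.1) * sw x.2) ((∑' k, Pool.Agent.Y5.V.sq (X k)) * Sg) :=
    hE.hasSum.mul hS.hasSum s1
  have s3 : HasSum (fun x : Z3 × Z3 => Pool.Agent.Y5.V.sq (X (x.1 - x.2)) * sw x.2) ((∑' k, Pool.Agent.Y5.V.sq (X k)) * Sg) :=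
    (shr.hasSum_iff (f := fun x : Z3 × Z3 => Pool.Agent.Y5.V.sq (X x.1) * sw x.2)).2 s2
  have s4 := (s3.add s2).mul_left (9 * Real.pi * M)
  have s5 := tsum_of_norm_bounded (f := tf X V X) s4 (fun x => by
    rw [tf, norm_mul]
    have h1 := co_le' X x.1 x.2
    have h2 := ip_le (X x.1) (V x.2)
    have h3 := hV.len_le x.2
    have h4 := norm_sq_le (X x.1)
    have h5 := norm_sq_le (X (x.1 - x.2))
    have h6 : ‖X (x.1 - x.2)‖ * ‖X x.1‖ ≤ (Pool.Agent.Y5.V.sq (X (x.1 - x.2)) + Pool.Agent.Y5.V.sq (X x.1)) / 2 := by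
      nlinarith [sq_nonneg (‖X (x.1 - x.2)‖ - ‖X x.1‖)]
    calc _ ≤ (6 * Real.pi * ‖X (x.1 - x.2)‖ * len x.2) * (3 * ‖X x.1‖ * ‖V x.2‖) :=
          mul_le_mul h1 h2 (norm_nonneg _) (mul_nonneg (by positivity) (len_nonneg _))
      _ = 18 * Real.pi * ((‖X (x.1 - x.2)‖ * ‖X x.1‖) * (len x.2 * ‖V x.2‖)) := by ring
      _ ≤ 18 * Real.pi * (((Pool.Agent.Y5.V.sq (X (x.1 - x.2)) + Pool.Agent.Y5.V.sq (X x.1)) / 2) * (M * sw x.2)) := by
          refine mul_le_mul_of_nonneg_left ?_ (by positivity)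
          refine mul_le_mul h6 h3 (mul_nonneg (len_nonneg _) (norm_nonneg _)) ?_
          have := sq_nonneg' (X (x.1 - x.2))
          have := sq_nonneg' (X x.1)
          linarith
      _ = _ := by ring)
  refine s5.trans (le_of_eq ?_)
  ring

/-- the contribution of the quadratic term -/
lemma main_est {M : ℝ} {V W : Coef} (hV : Dc M V) (hW : Dc M W)
    (hr : ∀ k j, W (-k) j = conj (W k j)) (hd : ∀ k, dt (kc k) (W k) = 0) :
    ∃ S : ℂ, HasSum (fun k => ip (V k - W k) (adv V k - adv W k)) S ∧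
      |S.re| ≤ 18 * Real.pi * M * Sg * ∑' k, Pool.Agent.Y5.V.sq (V k - W k) := by
  have hX := hV.sub hW
  refine ⟨(∑' x, tf (fun k => V k - W k) V (fun k => V k - W k) x) +
      ∑' x, tf W (fun k => V k - W k) (fun k => V k - W k) x, ?_, ?_⟩
  · have h1 := (sum_bl hS hX.sup hV hX).add (sum_bl hS hW.sup hX hX)
    have h2 : (fun k => ip (V k - W k) (adv V k - adv W k)) = fun k =>
        ip (V k - W k) (bl (fun k => V k - W k) V k) +
          ip (V k - W k) (bl W (fun k => V k - W k) k) := by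
      funext k
      rw [adv_eq, adv_eq, bl_sub hS hV hW, ip_add]
    rw [h2]
    exact h1
  · rw [Complex.add_re, anti hS hW hX hr hd, add_zero]
    exact (Complex.abs_re_le_norm _).trans (t1 hS hV hX)

lemma g_le {M : ℝ} {V W : Coef} (hV : Dc M V) (hW : Dc M W) (k : Z3) :
    ‖ip (V k - W k) (adv V k - adv W k)‖ ≤ 72 * Real.pi * M ^ 3 * Sg * sw k := by
  have hp := Real.pi_pos
  have hM := hV.M0
  have hSg := Sg_nonneg
  have h1 := (hV.sub hW).le k
  have h2 := bl_le hS hV.sup hV k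
  have h3 := bl_le hS hW.sup hW k
  rw [adv_eq, adv_eq]
  refine (ip_le _ _).trans ?_
  have h4 := norm_sub_le (bl V V k) (bl W W k)
  have h5 : ‖bl V V k - bl W W k‖ ≤ 12 * Real.pi * M * M * Sg := by linarith
  calc 3 * ‖V k - W k‖ * ‖bl V V k - bl W W k‖
      ≤ 3 * ((M + M) * sw k) * (12 * Real.pi * M * M * Sg) :=
        mul_le_mul (by linarith) h5 (norm_nonneg _)
          (mul_nonneg (by norm_num) (mul_nonneg (by linarith) (sw_nonneg k)))
    _ = _ := by ring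

/-! ### The evolution -/

omit hS

/-- partial sums of a dominated family -/
lemma part_le {I : Type} {f b : I → ℝ} (hf : Summable f) (hb : Summable b) (h : ∀ i, |f i| ≤ b i)
    (F : Finset I) : |∑ i ∈ F, f i - ∑' i, f i| ≤ ∑' i, b i - ∑ i ∈ F, b i := by
  have h1 : ∑ i ∈ F, (b i - f i) ≤ ∑' i, (b i - f i) :=
    (hb.sub hf).sum_le_tsum F (fun i _ => by have := (abs_le.1 (h i)).2; linarith)
  have h2 : ∑ i ∈ F, (b i + f i) ≤ ∑' i, (b i + f i) :=
    (hb.add hf).sum_le_tsum F (fun i _ => by have := (abs_le.1 (h i)).1; linarith)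
  rw [Finset.sum_sub_distrib, hb.tsum_sub hf] at h1
  rw [Finset.sum_add_distrib, hb.tsum_add hf] at h2
  rw [abs_le]
  constructor <;> linarith

lemma Dc.mono {M M' : ℝ} {X : Coef} (h : Dc M X) (hM : M ≤ M') : Dc M' X :=
  ⟨h.z, fun k => (h.d k).trans hM⟩

section Time

variable {d : Z3 → ℝ} {T : ℝ} {V W : ℝ → Coef}

lemma dc_of (hV : Sol d T V) {T' : ℝ} (hT' : T' < T) : ∃ M, ∀ t ∈ Icc 0 T', Dc M (V t) := by
  obtain ⟨M, hM⟩ := hV.reg 5 T' hT'
  refine ⟨M, fun t ht => ⟨(hV.field t ⟨ht.1, ht.2.trans_lt hT'⟩).zero, fun k => ?_⟩⟩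
  have h5 : 0 ≤ len k ^ 5 := pow_nonneg (len_nonneg k) 5
  have hM0 : 0 ≤ M := (mul_nonneg h5 (norm_nonneg _)).trans (hM t ht k 0)
  have h1 : ‖(len k ^ 5 : ℝ) • V t k‖ ≤ M := (pi_norm_le_iff_of_nonneg hM0).2 fun j => by
    rw [Pi.smul_apply, norm_smul, Real.norm_of_nonneg h5]
    exact hM t ht k j
  rwa [norm_smul, Real.norm_of_nonneg h5] at h1

lemma rhs_ip (d : Z3 → ℝ) (A B : Coef) (k : Z3) (h : dt (kc k) (A k - B k) = 0) :
    (∑ j, ((rhs d A k j - rhs d B k j) * conj ((A k - B k) j)).re) =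
      -(d k * Pool.Agent.Y5.V.sq (A k - B k)) - (ip (A k - B k) (adv A k - adv B k)).re := by
  have h1 : ∑ j, (rhs d A k j - rhs d B k j) * conj ((A k - B k) j) =
      -((d k : ℝ) : ℂ) * ip (A k - B k) (A k - B k) - ip (A k - B k) (adv A k - adv B k) +
        (dt (kc k) (adv A k) - dt (kc k) (adv B k)) / ((nsq k : ℝ) : ℂ) *
          conj (dt (kc k) (A k - B k)) := by
    have h2 : ∀ j, conj (kc k j) = kc k j := fun j => by simp [kc]
    have h3 : conj (dt (kc k) (A k - B k)) = ∑ j, kc k j * conj ((A k - B k) j) := by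
      rw [dt, map_sum]
      exact Finset.sum_congr rfl fun j _ => by rw [map_mul, h2]
    rw [h3]
    simp only [ip, rhs, leray, Finset.mul_sum, ← Finset.sum_sub_distrib, ← Finset.sum_add_distrib]
    refine Finset.sum_congr rfl fun j _ => ?_
    simp only [Pi.sub_apply]
    ring
  rw [← Complex.re_sum, h1, h, map_zero, mul_zero, add_zero, ip_self, Complex.sub_re, neg_mul,
    Complex.neg_re, ← Complex.ofReal_mul, Complex.ofReal_re]

lemma der (hV : Sol d T V) (hW : Sol d T W) (k : Z3) {t : ℝ} (ht : t ∈ Ico 0 T) :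
    HasDerivWithinAt (fun s => Pool.Agent.Y5.V.sq (V s k - W s k))
      (2 * (-(d k * Pool.Agent.Y5.V.sq (V t k - W t k)) -
        (ip (V t k - W t k) (adv (V t) k - adv (W t) k)).re)) (Ico 0 T) t := by
  by_cases hk : k = 0
  · subst hk
    have h0 : ∀ s ∈ Ico 0 T, V s 0 - W s 0 = 0 := fun s hs => by
      rw [(hV.field s hs).zero, (hW.field s hs).zero, sub_zero]
    have h1 : Pool.Agent.Y5.V.sq (0 : C3) = 0 := by simp [Pool.Agent.Y5.V.sq]
    have h2 : ∀ a : C3, ip 0 a = 0 := fun a => by simp [ip]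
    rw [h0 t ht, h1, h2, mul_zero, neg_zero, Complex.zero_re, sub_zero, mul_zero]
    refine (hasDerivWithinAt_const t (Ico 0 T) (0 : ℝ)).congr (fun s hs => ?_) ?_
    · rw [h0 s hs, h1]
    · rw [h0 t ht, h1]
  · have hdiv : dt (kc k) (V t k - W t k) = 0 := by
      have h1 := (hV.field t ht).div k
      have h2 := (hW.field t ht).div k
      have h3 : dt (kc k) (V t k - W t k) = dt (kc k) (V t k) - dt (kc k) (W t k) := by
        simp only [dt, Pi.sub_apply, mul_sub, Finset.sum_sub_distrib]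
      rw [h3, h1, h2, sub_zero]
    rw [← rhs_ip d (V t) (W t) k hdiv, Finset.mul_sum]
    refine HasDerivWithinAt.fun_sum fun j _ => ?_
    have h1 := ((hV.eqn k hk j t ht).sub (hW.eqn k hk j t ht)).norm_sq
    rw [Complex.inner] at h1
    exact h1

theorem main (hS : Summable sw) (hd : Dmp d) (hV : Sol d T V) (hW : Sol d T W)
    (h0 : V 0 = W 0) {T' : ℝ} (hT0 : 0 ≤ T') (hT : T' < T) (k : Z3) : V T' k = W T' k := by
  obtain ⟨M1, h1⟩ := dc_of hV hT
  obtain ⟨M2, h2⟩ := dc_of hW hT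
  obtain ⟨M, hM⟩ : ∃ M, M = max M1 M2 := ⟨_, rfl⟩
  have hVM : ∀ t ∈ Icc 0 T', Dc M (V t) := fun t ht => (h1 t ht).mono (hM ▸ le_max_left _ _)
  have hWM : ∀ t ∈ Icc 0 T', Dc M (W t) := fun t ht => (h2 t ht).mono (hM ▸ le_max_right _ _)
  have hM0 : 0 ≤ M := (hVM 0 ⟨le_rfl, hT0⟩).M0
  have hp := Real.pi_pos
  have hSg := Sg_nonneg
  have hsub : Icc 0 T' ⊆ Ico 0 T := fun t ht => ⟨ht.1, ht.2.trans_lt hT⟩
  set L : ℝ := 18 * Real.pi * M * Sg with hL
  have hL0 : 0 ≤ L := by positivity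
  set G : ℝ := 72 * Real.pi * M ^ 3 * Sg with hG
  set C : ℝ := 3 * (M + M) * (M + M) with hC
  let tau : Finset Z3 → ℝ := fun F => Sg - ∑ k ∈ F, sw k
  let f : Finset Z3 → ℝ → ℝ := fun F t => ∑ k ∈ F, Pool.Agent.Y5.V.sq (V t k - W t k)
  let f' : Finset Z3 → ℝ → ℝ := fun F t => ∑ k ∈ F, 2 * (-(d k * Pool.Agent.Y5.V.sq (V t k - W t k)) -
        (ip (V t k - W t k) (adv (V t) k - adv (W t) k)).re)
  have hder : ∀ F, ∀ t ∈ Ico 0 T, HasDerivWithinAt (f F) (f' F t) (Ico 0 T) t := fun F t ht =>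
    HasDerivWithinAt.fun_sum fun k _ => der hV hW k ht
  have hbound : ∀ F, ∀ t ∈ Icc 0 T', f' F t ≤ 2 * L * f F t + (2 * G + 2 * L * C) * tau F := by
    intro F t ht
    have hX := (hVM t ht).sub (hWM t ht)
    obtain ⟨S, hSum, hSre⟩ := main_est hS (hVM t ht) (hWM t ht)
      (hW.field t (hsub ht)).real (hW.field t (hsub ht)).div
    have hre := Complex.hasSum_re hSum
    have e1 := part_le hre.summable (hS.mul_left G) (fun k =>
      (Complex.abs_re_le_norm _).trans (g_le hS (hVM t ht) (hWM t ht) k)) F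
    rw [hre.tsum_eq, tsum_mul_left, ← Finset.mul_sum, ← mul_sub] at e1
    have e2 := part_le (sq_summ hS hX) (hS.mul_left C) (fun k => by
      rw [abs_of_nonneg (sq_nonneg' _)]
      refine (sq_le _).trans ?_
      have h1 := hX.le k
      have h2 := hX.sup k
      have h3 := hX.M0
      have h4 : ‖V t k - W t k‖ ^ 2 ≤ (M + M) * ((M + M) * sw k) := by
        rw [pow_two]
        exact mul_le_mul h2 h1 (norm_nonneg _) h3
      rw [hC]
      linarith) F
    rw [tsum_mul_left, ← Finset.mul_sum, ← mul_sub] at e2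
    have e3 : ∑' k, Pool.Agent.Y5.V.sq (V t k - W t k) ≤ f F t + C * tau F := by
      have := (abs_le.1 e2).1
      simp only [f, tau, Sg] at this ⊢
      linarith
    have e4 : f' F t ≤ -2 * ∑ k ∈ F, (ip (V t k - W t k) (adv (V t) k - adv (W t) k)).re := by
      rw [Finset.mul_sum]
      refine Finset.sum_le_sum fun k _ => ?_
      have := mul_nonneg (hd.nonneg k) (sq_nonneg' (V t k - W t k))
      linarith
    have e5 := (abs_le.1 e1).1
    have e6 := (abs_le.1 hSre).1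
    have e7 := mul_le_mul_of_nonneg_left e3 hL0
    have e8 : f' F t ≤ 2 * (G * tau F) + 2 * (L * ∑' k, Pool.Agent.Y5.V.sq (V t k - W t k)) := by
      simp only [tau, Sg] at e5 ⊢
      linarith
    have e9 : L * (f F t + C * tau F) = L * f F t + L * C * tau F := by ring
    have e10 : (2 * G + 2 * L * C) * tau F = 2 * (G * tau F) + 2 * (L * C * tau F) := by ring
    linarith
  have key : ∀ F, f F T' ≤ gronwallBound 0 (2 * L) ((2 * G + 2 * L * C) * tau F) T' := by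
    intro F
    have h := le_gronwallBound_of_liminf_deriv_right_le (f := f F) (f' := f' F) (δ := 0)
      (K := 2 * L) (ε := (2 * G + 2 * L * C) * tau F) (a := 0) (b := T')
      (fun t ht => ((hder F t (hsub ht)).continuousWithinAt).mono hsub)
      (fun t ht r hr => by
        have h3 : HasDerivWithinAt (f F) (f' F t) (Ici t) t := by
          refine (hder F t (hsub ⟨ht.1, ht.2.le⟩)).mono_of_mem_nhdsWithin ?_
          refine mem_of_superset (Ico_mem_nhdsGE (ht.2.trans hT)) ?_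
          exact Ico_subset_Ico_left ht.1
        exact h3.liminf_right_slope_le hr)
      (by simp only [f, h0, sub_self]; simp [Pool.Agent.Y5.V.sq])
      (fun t ht => hbound F t ⟨ht.1, ht.2.le⟩)
      T' ⟨hT0, le_rfl⟩
    rwa [sub_zero] at h
  have hlim : Tendsto (fun F => gronwallBound 0 (2 * L) ((2 * G + 2 * L * C) * tau F) T') atTop
      (𝓝 0) := by
    have h3 : Tendsto tau atTop (𝓝 0) := by
      have := (hS.hasSum).const_sub Sg
      rw [show Sg - ∑' k, sw k = 0 from sub_self _] at this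
      exact this
    have h4 : Tendsto (fun F => (2 * G + 2 * L * C) * tau F) atTop (𝓝 0) := by
      have := h3.const_mul (2 * G + 2 * L * C)
      rwa [mul_zero] at this
    have h5 := ((gronwallBound_continuous_ε 0 (2 * L) T').tendsto 0).comp h4
    rw [gronwallBound_ε0_δ0] at h5
    exact h5
  have hfin : Pool.Agent.Y5.V.sq (V T' k - W T' k) ≤ 0 := by
    refine ge_of_tendsto hlim ?_
    filter_upwards [eventually_ge_atTop {k}] with F hF
    refine le_trans ?_ (key F)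
    exact Finset.single_le_sum (f := fun k => Pool.Agent.Y5.V.sq (V T' k - W T' k)) (fun i _ => sq_nonneg' _)
      (hF (Finset.mem_singleton_self k))
  exact sub_eq_zero.1 (sq_eq_zero hfin)

end Time

/-- **VL-UNQ** -/
theorem t_UNQ : S_SUM → S_UNQ := by
  intro hS d T V W hd hV hW h0 t ht
  funext k
  exact main hS hd hV hW h0 ht.1 ht.2 k

end Pool.Agent.Y5.V.UNQ
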