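import Pool.Agent.Y5.V.XNG
import Pool.Agent.Y932.VL.Sum
import Pool.Agent.Y884.VL.Tri1
import Pool.Agent.Y391.VL.Tri2
import Pool.Agent.Y100.VL.Gal
import Pool.Agent.Y328.VL.UB1
import Pool.Agent.Y312.VL.UB2
import Pool.Agent.Y141.VL.Lim
import Pool.Agent.Y5.V.Unq
import Pool.Agent.Y794.VL.Glu
import Pool.Agent.Y794.VL.Enr
import Pool.Agent.Y794.VL.Sym
import Pool.Agent.Y542.VL.Max
import Pool.Agent.Y390.VL.LEV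
import Pool.Agent.Y96.VL.XN3
import Pool.Agent.Y177.VL.XN4
import Pool.Agent.Y955.VL.XN2
import Pool.Agent.Y496.VL.KPG
import Pool.Agent.Y429.VL.DAT
import Pool.Agent.Y977.VL.Scl

/-! The theorem of the second stage. -/

set_option autoImplicit false

namespace Pool.Agent.Y5.V

theorem t_sum : S_SUM := Pool.Agent.Y932.VL.Sum.t_SUM
theorem t_unq : S_UNQ := UNQ.t_UNQ t_sum
theorem t_enr : S_ENR := Pool.Agent.Y794.VL.Enr.t_ENR t_sum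
theorem t_loc : S_LOC := t_LOC_of Pool.Agent.Y100.VL.Gal.t_GAL
  (Pool.Agent.Y391.VL.Tri2.t_ORT Pool.Agent.Y884.VL.Tri1.t_TRI1) Pool.Agent.Y312.VL.UB2.t_UB t_sum
  (Pool.Agent.Y328.VL.UB1.t_UB1 (Pool.Agent.Y391.VL.Tri2.t_TRI Pool.Agent.Y884.VL.Tri1.t_TRI1))
  (Pool.Agent.Y141.VL.Lim.t_LIM t_sum)

theorem t_NOGO2 : S_NOGO2 := t_NOGO2_of t_sum Pool.Agent.Y794.VL.Sym.t_SYM t_unq t_enr
  Pool.Agent.Y390.VL.LEV.t_LEV t_XNG Pool.Agent.Y955.VL.XN2.t_XN2 Pool.Agent.Y96.VL.XN3.t_XN3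
  Pool.Agent.Y177.VL.XN4.t_XN4 Pool.Agent.Y496.VL.KPG.t_KPG Pool.Agent.Y429.VL.DAT.t_DATV

theorem t_MAINW : S_MAINW := t_MAINW_of t_NOGO2 Pool.Agent.Y542.VL.Max.t_MAX t_loc t_unq
  Pool.Agent.Y794.VL.Glu.t_GLU t_enr Pool.Agent.Y977.VL.Scl.t_SCL Pool.Agent.Y429.VL.DAT.t_DATV

end Pool.Agent.Y5.V
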