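import Pool.Agent.Y5.V.MainW
import Pool.Agent.Y5.V.Asm3
import Pool.Agent.Y417.VL.Kpw
import Pool.Agent.Y337.VL.XN2S
import Pool.Agent.Y759.VL.Wt
import Pool.Agent.Y309.VL.XN4S

/-! The theorem of the third stage. -/

set_option autoImplicit false

namespace Pool.Agent.Y5.V

theorem t_NOGO3 : S_NOGO3 := t_NOGO3_of t_sum Pool.Agent.Y794.VL.Sym.t_SYM t_unq t_enr
  Pool.Agent.Y390.VL.LEV.t_LEV t_XNG Pool.Agent.Y337.VL.XN2S.t_XN2S Pool.Agent.Y96.VL.XN3.t_XN3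
  Pool.Agent.Y309.VL.XN4S.t_XN4S Pool.Agent.Y417.VL.KPW.t_KPW Pool.Agent.Y759.VL.Wt.t_WT
  Pool.Agent.Y429.VL.DAT.t_DATV

theorem t_MAINX : S_MAINX := t_MAINX_of t_NOGO3 Pool.Agent.Y542.VL.Max.t_MAX t_loc t_unq
  Pool.Agent.Y794.VL.Glu.t_GLU t_enr Pool.Agent.Y977.VL.Scl.t_SCL Pool.Agent.Y429.VL.DAT.t_DATV

end Pool.Agent.Y5.V
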