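import Pool.Agent.Y5.V.MainX
import Pool.Agent.Y5.V.Asm4
import Pool.Agent.Y153.VL.Per
import Pool.Agent.Y108.VL.Und

/-! The theorem of the fourth stage. -/

set_option autoImplicit false

namespace Pool.Agent.Y5.V

theorem t_MAINY : S_MAINY := t_MAINY_of t_NOGO3 Pool.Agent.Y542.VL.Max.t_MAX t_loc t_unq
  Pool.Agent.Y794.VL.Glu.t_GLU t_enr Pool.Agent.Y977.VL.Scl.t_SCL Pool.Agent.Y429.VL.DAT.t_DATV
  Pool.Agent.Y153.VL.Per.t_PER Pool.Agent.Y108.VL.Und.t_UND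

end Pool.Agent.Y5.V
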