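import Pool.Agent.Y5.V.Stm
import Pool.Agent.Y809.EK.CJ1
import Pool.Agent.Y978.EK.CJ2

/-! Smooth solutions do not exist for a long time. -/

open Set Filter Topology
open scoped ComplexConjugate

set_option autoImplicit false

namespace Pool.Agent.Y5.V

open Pool.Agent.Y6.M (Z3 C3 Coef dt kc cj nsq len adv leray IsField energy)
open Pool.Agent.Y5.D (pair bil vec)
open Pool.Agent.Y6.K (Em Ac cvf Chain)

theorem t_LOC_of (hG : S_GAL) (hO : S_ORT) (hU : S_UB) (hs : S_SUM) (hU1 : S_UB1)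
    (hL : S_LIM) : S_LOC := by
  intro B
  obtain ⟨δ, hδ, h⟩ := hU hs hU1 B
  refine ⟨δ, hδ, fun d V0 hd hV hB => ?_⟩
  have hZ : ∀ R : ℕ, ∃ Z, GSol d R δ V0 Z := fun R => hG hO d V0 R δ hd hV hδ
  choose Z hZ using hZ
  refine hL d V0 δ Z hd hV hδ hZ fun q => ?_
  obtain ⟨M, hM⟩ := h V0 hV hB q
  exact ⟨M, fun R t ht k j => hM d R (Z R) hd (hZ R) t ht k j⟩

lemma nsq_nn (k : Z3) : 0 ≤ nsq k := Finset.sum_nonneg fun _ _ => sq_nonneg _

lemma nsq_neg (k : Z3) : nsq (-k) = nsq k := by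
  unfold nsq
  simp

lemma len_sq' (k : Z3) : len k ^ 2 = (nsq k : ℝ) := by
  unfold len
  rw [Real.sq_sqrt]
  exact_mod_cast nsq_nn k

lemma len_nn (k : Z3) : 0 ≤ len k := Real.sqrt_nonneg _

lemma nsq_pos {k : Z3} (hk : k ≠ 0) : 1 ≤ nsq k := by
  rcases (nsq_nn k).lt_or_eq with h1 | h1
  · omega
  · exfalso
    apply hk
    have h2 := (Finset.sum_eq_zero_iff_of_nonneg (s := Finset.univ)
      (f := fun j => k j ^ 2) (fun _ _ => sq_nonneg _)).1 h1.symm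
    funext j
    have := h2 j (Finset.mem_univ j)
    simpa using this

lemma len_one {k : Z3} (hk : k ≠ 0) : 1 ≤ len k := by
  have h1 := len_sq' k
  have h2 : (1 : ℝ) ≤ (nsq k : ℝ) := by exact_mod_cast nsq_pos hk
  have h3 := len_nn k
  nlinarith

lemma sq_nn (a : C3) : 0 ≤ sq a := Finset.sum_nonneg fun _ _ => by positivity

lemma sq_le {a : C3} {M : ℝ} (h : ∀ j, ‖a j‖ ≤ M) : sq a ≤ 3 * M ^ 2 := by
  unfold sq
  rw [Fin.sum_univ_three]
  have h0 := pow_le_pow_left₀ (norm_nonneg _) (h 0) 2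
  have h1 := pow_le_pow_left₀ (norm_nonneg _) (h 1) 2
  have h2 := pow_le_pow_left₀ (norm_nonneg _) (h 2) 2
  linarith

lemma Lac.dmp {ν : ℝ} {φ : ℤ → ℝ} (h : Lac ν φ) : Dmp (fun k => φ (nsq k)) := by
  refine ⟨fun k => h.nonneg _, fun k => by rw [nsq_neg], ?_⟩
  obtain ⟨C, p, hC⟩ := h.poly
  refine ⟨|C|, 2 * p, fun k => ?_⟩
  have h1 := hC (nsq k) (nsq_nn k)
  have h2 : C * (1 + (nsq k : ℝ)) ^ p ≤ |C| * (1 + (nsq k : ℝ)) ^ p := by
    have : (0 : ℝ) ≤ (nsq k : ℝ) := by exact_mod_cast nsq_nn k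
    have := le_abs_self C
    gcongr
  refine h1.trans (h2.trans ?_)
  rw [pow_mul]
  have h3 := len_sq' k
  have h4 := len_nn k
  have h5 : 1 + (nsq k : ℝ) ≤ (1 + len k) ^ 2 := by nlinarith
  have h6 : (0 : ℝ) ≤ 1 + (nsq k : ℝ) := by
    have : (0 : ℝ) ≤ (nsq k : ℝ) := by exact_mod_cast nsq_nn k
    linarith
  gcongr

/-! ### growth of the coefficients -/

lemma Ac_le (n : ℕ) : Ac n ≤ 14 * 8 ^ (n / 4) := by
  have hπ := Real.pi_lt_d2
  have hπ0 := Real.pi_pos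
  have hs : ((Pool.Agent.Y302.Trunc.sg 1 n : ℤ) : ℝ) = 8 ^ (n / 4) := by
    unfold Pool.Agent.Y302.Trunc.sg
    push_cast
    ring
  have h8 : (0 : ℝ) < 8 ^ (n / 4) := by positivity
  have s1 : √(240 : ℝ) ≤ 15.5 := by
    rw [Real.sqrt_le_left (by norm_num)]; norm_num
  have s2 : √(264 : ℝ) ≤ 16.25 := by
    rw [Real.sqrt_le_left (by norm_num)]; norm_num
  have s3 : √(312 : ℝ) ≤ 17.7 := by
    rw [Real.sqrt_le_left (by norm_num)]; norm_num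
  have s4 : √(528 : ℝ) ≤ 23 := by
    rw [Real.sqrt_le_left (by norm_num)]; norm_num
  unfold Ac
  rw [hs]
  have hm : n % 4 = 0 ∨ n % 4 = 1 ∨ n % 4 = 2 ∨ n % 4 = 3 := by omega
  rcases hm with h | h | h | h
  · have h' : (n + 1) % 4 = 1 := by omega
    rw [h, h']
    simp only [Pool.Agent.Y302.Trunc.num, Pool.Agent.Y302.Trunc.den, Pool.Agent.Y6.K.nrm]
    push_cast
    calc 2 * Real.pi * (8 ^ (n / 4) * 66 / 5) * √240 / 528
        ≤ 2 * 3.15 * (8 ^ (n / 4) * 66 / 5) * 15.5 / 528 := by gcongr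
      _ ≤ 14 * 8 ^ (n / 4) := by nlinarith
  · have h' : (n + 1) % 4 = 2 := by omega
    rw [h, h']
    simp only [Pool.Agent.Y302.Trunc.num, Pool.Agent.Y302.Trunc.den, Pool.Agent.Y6.K.nrm]
    push_cast
    calc 2 * Real.pi * (8 ^ (n / 4) * 120 / 11) * √264 / 240
        ≤ 2 * 3.15 * (8 ^ (n / 4) * 120 / 11) * 16.25 / 240 := by gcongr
      _ ≤ 14 * 8 ^ (n / 4) := by nlinarith
  · have h' : (n + 1) % 4 = 3 := by omega
    rw [h, h']
    simp only [Pool.Agent.Y302.Trunc.num, Pool.Agent.Y302.Trunc.den, Pool.Agent.Y6.K.nrm]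
    push_cast
    calc 2 * Real.pi * (8 ^ (n / 4) * 264 / 13) * √312 / 264
        ≤ 2 * 3.15 * (8 ^ (n / 4) * 264 / 13) * 17.7 / 264 := by gcongr
      _ ≤ 14 * 8 ^ (n / 4) := by nlinarith
  · have h' : (n + 1) % 4 = 0 := by omega
    rw [h, h']
    simp only [Pool.Agent.Y302.Trunc.num, Pool.Agent.Y302.Trunc.den, Pool.Agent.Y6.K.nrm]
    push_cast
    calc 2 * Real.pi * (8 ^ (n / 4) * 312 / 11) * √528 / 312
        ≤ 2 * 3.15 * (8 ^ (n / 4) * 312 / 11) * 23 / 312 := by gcongr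
      _ ≤ 14 * 8 ^ (n / 4) := by nlinarith

lemma Ac_pos {A : ℕ → ℝ} (h : Chain A) (n : ℕ) : 1 ≤ A n := by
  induction n with
  | zero => exact h.A0
  | succ n ih =>
    have := h.lo n
    linarith

/-- summability of `(9/10)^n A_n^(1/6)` -/
lemma summ_c (h : Chain Ac) (C : ℝ) (hC : 0 < C) :
    Summable (fun n => (9 / 10 : ℝ) ^ n * (C * Ac n ^ (1 / 6 : ℝ))) := by
  have hs : Summable (fun n : ℕ => (C * 14 ^ (1 / 6 : ℝ) * (983 / 1000 : ℝ)⁻¹ ^ 3) *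
      (983 / 1000 : ℝ) ^ n) :=
    (summable_geometric_of_lt_one (by norm_num) (by norm_num)).mul_left _
  refine Summable.of_nonneg_of_le (fun n => ?_) (fun n => ?_) hs
  · have := Ac_pos h n
    positivity
  · have hA := Ac_pos h n
    have h1 : Ac n ^ (1 / 6 : ℝ) ≤ 14 ^ (1 / 6 : ℝ) * (√2) ^ (n / 4) := by
      have e1 : Ac n ^ (1 / 6 : ℝ) ≤ (14 * 8 ^ (n / 4)) ^ (1 / 6 : ℝ) :=
        Real.rpow_le_rpow (by linarith) (Ac_le n) (by norm_num)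
      rw [Real.mul_rpow (by norm_num) (by positivity)] at e1
      refine e1.trans (le_of_eq ?_)
      congr 1
      rw [← Real.rpow_natCast 8, ← Real.rpow_mul (by norm_num), mul_comm,
        Real.rpow_mul (by norm_num), Real.rpow_natCast]
      congr 1
      have e8 : (8 : ℝ) = 2 ^ (3 : ℝ) := by norm_num
      rw [e8, ← Real.rpow_mul (by norm_num), Real.sqrt_eq_rpow]
      norm_num
    have h2 : (9 / 10 : ℝ) ^ n ≤ ((9 / 10 : ℝ) ^ 4) ^ (n / 4) := by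
      rw [← pow_mul]
      exact pow_le_pow_of_le_one (by norm_num) (by norm_num) (Nat.mul_div_le n 4)
    have hr : √2 ≤ 1.41422 := by
      rw [Real.sqrt_le_left (by norm_num)]; norm_num
    have h3 : ((9 / 10 : ℝ) ^ 4) ^ (n / 4) * (√2) ^ (n / 4) ≤ ((983 / 1000 : ℝ) ^ 4) ^ (n / 4) := by
      rw [← mul_pow]
      apply pow_le_pow_left₀ (by positivity)
      calc (9 / 10 : ℝ) ^ 4 * √2 ≤ (9 / 10 : ℝ) ^ 4 * 1.41422 := by gcongr
        _ ≤ (983 / 1000 : ℝ) ^ 4 := by norm_num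
    have h4 : ((983 / 1000 : ℝ) ^ 4) ^ (n / 4) ≤ (983 / 1000 : ℝ)⁻¹ ^ 3 * (983 / 1000 : ℝ) ^ n := by
      rw [← pow_mul, inv_pow, ← div_eq_inv_mul, le_div_iff₀ (by positivity), ← pow_add]
      apply pow_le_pow_of_le_one (by norm_num) (by norm_num)
      omega
    calc (9 / 10 : ℝ) ^ n * (C * Ac n ^ (1 / 6 : ℝ))
        ≤ ((9 / 10 : ℝ) ^ 4) ^ (n / 4) * (C * (14 ^ (1 / 6 : ℝ) * (√2) ^ (n / 4))) := by gcongr
      _ = (C * 14 ^ (1 / 6 : ℝ)) * (((9 / 10 : ℝ) ^ 4) ^ (n / 4) * (√2) ^ (n / 4)) := by ring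
      _ ≤ (C * 14 ^ (1 / 6 : ℝ)) * ((983 / 1000 : ℝ)⁻¹ ^ 3 * (983 / 1000 : ℝ) ^ n) :=
        mul_le_mul_of_nonneg_left (h3.trans h4) (by positivity)
      _ = _ := by ring

/-! ### amplitudes of the chain -/

lemma len_vec (k : Z3) : ‖vec k‖ ^ 2 = (nsq k : ℝ) := by
  unfold vec nsq
  rw [EuclideanSpace.norm_sq_eq]
  push_cast
  simp

/-- the energy in a level -/
lemma lev_energy (hLEV : S_LEV) {V : Coef} (hV : IsField V) (hS : Sy V) (n : ℕ) :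
    ∑ k ∈ Pool.Agent.Y302.Trunc.Lev 1 n, sq (V k) = xc V n ^ 2 := by
  obtain ⟨-, -, -, h4, h5, -⟩ := hLEV V hV hS
  obtain ⟨-, -, -, -, -, -, h7⟩ := Pool.Agent.Y809.EK.t_CJ1
  obtain ⟨-, -, e1, -, -, e2⟩ := h7 n
  have h8 : ∑ k ∈ Pool.Agent.Y302.Trunc.Lev 1 n, ‖Em n k‖ ^ 2 = 1 := by
    rw [← e1]
    unfold pair
    rw [tsum_eq_sum (s := Pool.Agent.Y302.Trunc.Lev 1 n)]
    · refine Finset.sum_congr rfl fun k _ => ?_
      rw [real_inner_self_eq_norm_sq]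
    · intro k hk
      rw [(e2 k hk).1]
      simp
  calc ∑ k ∈ Pool.Agent.Y302.Trunc.Lev 1 n, sq (V k)
      = ∑ k ∈ Pool.Agent.Y302.Trunc.Lev 1 n, xc V n ^ 2 * ‖Em n k‖ ^ 2 := by
        refine Finset.sum_congr rfl fun k hk => ?_
        rw [← h4 k, h5 n k hk, norm_smul, mul_pow, Real.norm_eq_abs, sq_abs]
    _ = xc V n ^ 2 := by rw [← Finset.mul_sum, h8, mul_one]

lemma lev_disj {n m : ℕ} (h : n ≠ m) : Disjoint (Pool.Agent.Y302.Trunc.Lev 1 n)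
    (Pool.Agent.Y302.Trunc.Lev 1 m) := by
  obtain ⟨h1, -, -, h4, h5, -⟩ := Pool.Agent.Y809.EK.t_CJ1
  rw [Finset.disjoint_left]
  intro k hn hm
  have e1 := (h1 n k).1 hn
  have e2 := (h1 m k).1 hm
  have e3 : (Pool.Agent.Y302.Trunc.rho 1 n : ℝ) = Pool.Agent.Y302.Trunc.rho 1 m := by
    rw [← e1, ← e2]
  have p : ∀ i, (0 : ℝ) ≤ (Pool.Agent.Y302.Trunc.rho 1 i : ℝ) := fun i =>
    le_trans (by positivity) (h4 i).1
  -- the sequence `rho` is injective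
  have hr : ∀ i, Pool.Agent.Y302.Trunc.rho 1 i =
      64 ^ (i / 4) * Pool.Agent.Y302.Trunc.rb (i % 4) := by
    intro i
    unfold Pool.Agent.Y302.Trunc.rho Pool.Agent.Y302.Trunc.sg
    rw [Nat.cast_one, one_mul, ← pow_mul, mul_comm (i / 4) 2, pow_mul]
    norm_num
  have e4 : Pool.Agent.Y302.Trunc.rho 1 n = Pool.Agent.Y302.Trunc.rho 1 m := by exact_mod_cast e3
  rw [hr, hr] at e4
  have hb : ∀ i, i % 4 = 0 ∨ i % 4 = 1 ∨ i % 4 = 2 ∨ i % 4 = 3 := by omega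
  have hval : ∀ i, (i = 0 → Pool.Agent.Y302.Trunc.rb i = 11) ∧
      (i = 1 → Pool.Agent.Y302.Trunc.rb i = 40) ∧ (i = 2 → Pool.Agent.Y302.Trunc.rb i = 88) ∧
      (i = 3 → Pool.Agent.Y302.Trunc.rb i = 208) := by
    intro i
    refine ⟨?_, ?_, ?_, ?_⟩ <;> · rintro rfl; decide
  have key : ∀ a b : ℕ, ∀ x y : ℤ, a < b → 1 ≤ x → x ≤ 208 → 11 ≤ y →
      (64 : ℤ) ^ a * x ≠ 64 ^ b * y := by
    intro a b x y hab hx1 hx hy he
    obtain ⟨c, rfl⟩ := Nat.exists_eq_add_of_lt hab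
    have h6 : (64 : ℤ) ^ (a + c + 1) = 64 ^ a * 64 ^ (c + 1) := by
      rw [← pow_add]; ring_nf
    rw [h6, mul_assoc] at he
    have h7 : (0 : ℤ) < 64 ^ a := by positivity
    have h8 := mul_left_cancel₀ h7.ne' he
    have h9 : (64 : ℤ) ≤ 64 ^ (c + 1) := by
      calc (64 : ℤ) = 64 ^ 1 := by norm_num
        _ ≤ 64 ^ (c + 1) := pow_le_pow_right₀ (by norm_num) (by omega)
    nlinarith
  have hx : ∀ i, 1 ≤ Pool.Agent.Y302.Trunc.rb (i % 4) ∧ Pool.Agent.Y302.Trunc.rb (i % 4) ≤ 208 ∧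
      11 ≤ Pool.Agent.Y302.Trunc.rb (i % 4) := by
    intro i
    rcases hb i with h | h | h | h
    · rw [h, (hval 0).1 rfl]; norm_num
    · rw [h, (hval 1).2.1 rfl]; norm_num
    · rw [h, (hval 2).2.2.1 rfl]; norm_num
    · rw [h, (hval 3).2.2.2 rfl]; norm_num
  rcases lt_trichotomy (n / 4) (m / 4) with h10 | h10 | h10
  · exact key _ _ _ _ h10 (hx n).1 (hx n).2.1 (hx m).2.2 e4
  · rw [h10] at e4
    have h11 : (0 : ℤ) < 64 ^ (m / 4) := by positivity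
    have h12 := mul_left_cancel₀ h11.ne' e4
    have h13 : n % 4 ≠ m % 4 := by omega
    rcases hb n with a | a | a | a <;> rcases hb m with b | b | b | b <;>
      rw [a, b] at h12 <;> first
        | exact h13 (a.trans b.symm)
        | (revert h12; decide)
  · exact key _ _ _ _ h10 (hx m).1 (hx m).2.1 (hx n).2.2 e4.symm

end Pool.Agent.Y5.V
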