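import Pool.Agent.Y5.V.Defs

/-! Statements of the steps (Euler equations with damping `φ(-Δ)`). -/

open Set Filter Topology
open scoped ComplexConjugate

set_option autoImplicit false

namespace Pool.Agent.Y5.V

open Pool.Agent.Y6.M (Z3 C3 Coef dt kc cj nsq len adv leray IsField energy)
open Pool.Agent.Y5.D (pair bil vec)
open Pool.Agent.Y6.K (Em Ac cvf Chain)

/-- a convergent series -/
def S_SUM : Prop := Summable fun k : Z3 => if k = 0 then (0 : ℝ) else (len k ^ 4)⁻¹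

/-- Symmetrisation of the trilinear form (trigonometric polynomials). -/
def S_TRI1 : Prop := ∀ (ω : Z3 → ℝ) (R : ℕ) (V : Coef), (∀ k, ω (-k) = ω k) →
  (∀ k, (R : ℤ) < nsq k → V k = 0) → V 0 = 0 → (∀ k j, V (-k) j = conj (V k j)) →
  (∀ k, dt (kc k) (V k) = 0) →
  |∑' k, ω k * (∑ j, conj (V k j) * adv V k j).re| ≤ Real.pi * ∑' p : Z3 × Z3,
    |ω p.1 - ω p.2| * min (len p.1) (len p.2) *
      (nm (V (p.1 - p.2)) * nm (V p.2) * nm (V p.1))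

/-- The trilinear estimate (trigonometric polynomials). -/
def S_TRI : Prop := ∀ m : ℕ, ∃ C : ℝ, 0 ≤ C ∧ ∀ (R : ℕ) (V : Coef),
  (∀ k, (R : ℤ) < nsq k → V k = 0) → V 0 = 0 → (∀ k j, V (-k) j = conj (V k j)) →
  (∀ k, dt (kc k) (V k) = 0) →
  |∑' k, len k ^ (2 * m) * (∑ j, conj (V k j) * adv V k j).re| ≤ C * hN V * hE m V

/-- Conservation of the energy by the quadratic term (trigonometric polynomials). -/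
def S_ORT : Prop := ∀ (R : ℕ) (V : Coef),
  (∀ k, (R : ℤ) < nsq k → V k = 0) → V 0 = 0 → (∀ k j, V (-k) j = conj (V k j)) →
  (∀ k, dt (kc k) (V k) = 0) →
  ∑' k, (∑ j, conj (V k j) * adv V k j).re = 0

/-- Existence for the truncated systems. -/
def S_GAL : Prop := S_ORT → ∀ (d : Z3 → ℝ) (V0 : Coef) (R : ℕ) (δ : ℝ), Dmp d → IsField V0 →
  0 < δ → ∃ Z, GSol d R δ V0 Z

/-- Differential inequalities for the truncated systems. -/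
def S_UB1 : Prop := ∀ m : ℕ, ∃ C : ℝ, 0 ≤ C ∧ ∀ (d : Z3 → ℝ) (R : ℕ) (δ : ℝ) (V0 : Coef)
  (Z : ℝ → Coef), Dmp d → GSol d R δ V0 Z → ∀ t ∈ Icc 0 δ, ∃ D : ℝ,
  HasDerivWithinAt (fun s => hE m (Z s)) D (Icc 0 δ) t ∧ D ≤ C * hN (Z t) * hE m (Z t)

/-- Uniform bounds for the truncated systems. -/
def S_UB : Prop := S_SUM → S_UB1 → ∀ B : ℝ, ∃ δ : ℝ, 0 < δ ∧ ∀ V0 : Coef, IsField V0 →
  hE 3 V0 ≤ B → ∀ q : ℕ, ∃ M : ℝ, ∀ (d : Z3 → ℝ) (R : ℕ) (Z : ℝ → Coef), Dmp d →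
    GSol d R δ V0 Z → ∀ t ∈ Icc 0 δ, ∀ k j, len k ^ q * ‖Z t k j‖ ≤ M

/-- Limits of the solutions of the truncated systems. -/
def S_LIM : Prop := ∀ (d : Z3 → ℝ) (V0 : Coef) (δ : ℝ) (Z : ℕ → ℝ → Coef), Dmp d → IsField V0 →
  0 < δ → (∀ R, GSol d R δ V0 (Z R)) →
  (∀ q : ℕ, ∃ M : ℝ, ∀ R, ∀ t ∈ Icc 0 δ, ∀ k j, len k ^ q * ‖Z R t k j‖ ≤ M) →
  ∃ V, CSol d δ V ∧ V 0 = V0

/-- Local existence. -/
def S_LOC : Prop := ∀ B : ℝ, ∃ δ : ℝ, 0 < δ ∧ ∀ (d : Z3 → ℝ) (V0 : Coef), Dmp d → IsField V0 →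
  hE 3 V0 ≤ B → ∃ V, CSol d δ V ∧ V 0 = V0

/-- Uniqueness. -/
def S_UNQ : Prop := ∀ (d : Z3 → ℝ) (T : ℝ) (V W : ℝ → Coef), Dmp d → Sol d T V → Sol d T W →
  V 0 = W 0 → ∀ t ∈ Ico 0 T, V t = W t

/-- The energy identity. -/
def S_ENR : Prop := ∀ (d : Z3 → ℝ) (T : ℝ) (V : ℝ → Coef), Dmp d → Sol d T V → ∀ t ∈ Ico 0 T,
  Summable (fun k => sq (V t k)) ∧ Summable (fun k => d k * sq (V t k)) ∧
  HasDerivWithinAt (fun s => energy (V s)) (-(2 * ∑' k, d k * sq (V t k))) (Ico 0 T) t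

/-- Gluing of solutions. -/
def S_GLU : Prop := S_UNQ → ∀ (d : Z3 → ℝ) (T δ t₁ : ℝ) (V W : ℝ → Coef), Dmp d → Sol d T V →
  CSol d δ W → 0 < δ → t₁ ∈ Ico 0 T → W 0 = V t₁ → T ≤ t₁ + δ →
  ∃ U, Sol d (t₁ + δ) U ∧ U 0 = V 0

/-- The maximal solution. -/
def S_MAX : Prop := S_LOC → S_UNQ → S_GLU → ∀ (d : Z3 → ℝ) (V0 : Coef) (T₀ : ℝ), Dmp d → IsField V0 →
  (∀ (T' : ℝ) (W : ℝ → Coef), 0 < T' → Sol d T' W → W 0 = V0 → T' ≤ T₀) →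
  ∃ (T : ℝ) (V : ℝ → Coef), 0 < T ∧ T ≤ T₀ ∧ Sol d T V ∧ V 0 = V0 ∧
    (∀ (T' : ℝ) (W : ℝ → Coef), 0 < T' → Sol d T' W → W 0 = V0 →
      T' ≤ T ∧ ∀ t ∈ Ico 0 T', W t = V t) ∧
    ∀ M : ℝ, ∃ t ∈ Ico 0 T, M < hE 3 (V t)

/-- Symmetric data have symmetric solutions. -/
def S_SYM : Prop := S_UNQ → ∀ (φ : ℤ → ℝ) (T : ℝ) (V : ℝ → Coef), Dmp (fun k => φ (nsq k)) →
  Sol (fun k => φ (nsq k)) T V → Sy (V 0) → ∀ t ∈ Ico 0 T, Sy (V t)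

/-- Symmetric fields on the undamped spheres. -/
def S_LEV : Prop := ∀ V : Coef, IsField V → Sy V →
  Pool.Agent.Y5.D.OT (wOf V) ∧ Pool.Agent.Y5.D.Rap (wOf V) ∧
  (∀ k j, V k j = -Complex.I * ((wOf V k j : ℝ) : ℂ)) ∧ (∀ k, ‖wOf V k‖ ^ 2 = sq (V k)) ∧
  (∀ n, ∀ k ∈ Pool.Agent.Y302.Trunc.Lev 1 n, wOf V k = xc V n • Em n k) ∧
  ∀ k : Z3, lac (nsq k) ↔ ∃ n, k ∈ Pool.Agent.Y302.Trunc.Lev 1 n

/-- The equations of the amplitudes of the chain. -/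
def S_XN1 : Prop := S_LEV → ∀ (φ : ℤ → ℝ) (ν T : ℝ) (V : ℝ → Coef), 0 < ν → Lac ν φ →
  Sol (fun k => φ (nsq k)) T V → (∀ t ∈ Ico 0 T, Sy (V t)) → ∀ n, ∀ t ∈ Ico 0 T,
  HasDerivWithinAt (fun s => xc (V s) n) (bil (wOf (V t)) (wOf (V t)) (Em n)) (Ico 0 T) t

/-- the part of a field in the chain -/
noncomputable def wch (x : ℕ → ℝ) : Pool.Agent.Y5.D.Fam := fun k => ∑' m : ℕ, x m • Em m k

/-- The interactions of the chain. -/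
def S_XN3 : Prop := ∀ x : ℕ → ℝ, (∀ m : ℕ, ∃ M, ∀ n, Ac n ^ m * |x n| ≤ M) → ∀ n,
  bil (wch x) (wch x) (Em n) = cvf Ac x n

/-- The interactions of the chain with the damped modes. -/
def S_XN4 : Prop := ∃ C : ℝ, 0 < C ∧ ∀ (w : Pool.Agent.Y5.D.Fam) (x : ℕ → ℝ),
  Pool.Agent.Y5.D.OT w → Pool.Agent.Y5.D.Rap w → ∑' k, ‖w k‖ ^ 2 ≤ 1 →
  (∀ n, ∀ k ∈ Pool.Agent.Y302.Trunc.Lev 1 n, w k = x n • Em n k) → ∀ n,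
  |bil w w (Em n) - bil (wch x) (wch x) (Em n)| ≤ C * Ac n ^ (1 / 6 : ℝ) *
    √(open Classical in
      ∑' k, if lac (nsq k) then 0 else (nsq k : ℝ) ^ (5 / 6 : ℝ) * ‖w k‖ ^ 2)

/-- The perturbations of the chain. -/
def S_XN2 : Prop := S_LEV → S_XN3 → S_XN4 → ∃ C : ℝ, 0 < C ∧ ∀ V : Coef, IsField V → Sy V → energy V ≤ 1 →
  ∀ n, |bil (wOf V) (wOf V) (Em n) - cvf Ac (xc V) n| ≤ C * Ac n ^ (1 / 6 : ℝ) * √(eo V)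

/-- The chain. The function `en` is the energy, `E ^ 2` bounds the dissipation. -/
def S_KP : Prop := ∀ A : ℕ → ℝ, Chain A → ∀ (c : ℕ → ℝ), (∀ n, 0 ≤ c n) →
  Summable (fun n => (9 / 10 : ℝ) ^ n * c n) → ∃ κ₀ T₀ : ℝ, 0 < κ₀ ∧ 0 < T₀ ∧
  ∀ (κ T : ℝ) (x f : ℕ → ℝ → ℝ) (en E : ℝ → ℝ), κ₀ ≤ κ → 0 < T →
    (∀ n, ∀ t ∈ Ico 0 T,
      HasDerivWithinAt (x n) (cvf A (fun m => x m t) n + f n t) (Ico 0 T) t) →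
    (∀ n, ∀ t ∈ Ico 0 T, |f n t| ≤ c n * E t) →
    (∀ t ∈ Ico 0 T, 0 ≤ E t ∧ 0 ≤ en t ∧ en t ≤ 1) → (∀ T' < T, ∃ M, ∀ t ∈ Icc 0 T', E t ≤ M) →
    (∀ t ∈ Ico 0 T, ∃ e', HasDerivWithinAt en e' (Ico 0 T) t ∧ e' ≤ -(2 * κ * E t ^ 2)) →
    (∀ t ∈ Ico 0 T, Summable (fun n => x n t ^ 2) ∧ ∑' n, x n t ^ 2 ≤ 1) →
    (∀ (k : ℕ), ∀ T' < T, ∃ M, ∀ t ∈ Icc 0 T', ∀ n, A n ^ k * |x n t| ≤ M) →
    x 0 0 = 1 → (∀ n, x (n + 1) 0 = 0) → T ≤ T₀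

/-- The initial field. -/
def S_DATV : Prop := IsField dat ∧ Sy dat ∧ energy dat = 1 ∧ xc dat 0 = 1 ∧
  ∀ n, xc dat (n + 1) = 0

/-- Scaling. -/
def S_SCL : Prop := ∀ (d : Z3 → ℝ) (a T : ℝ) (V : ℝ → Coef), 0 < a → Sol d T V →
  Sol (fun k => a * d k) (T / a) (fun t k j => (a : ℂ) * V (a * t) k j)

/-- Smooth solutions do not exist for a long time. -/
def S_NOGO : Prop := ∃ ν₀ T₀ : ℝ, 0 < ν₀ ∧ 0 < T₀ ∧ ∀ (φ : ℤ → ℝ) (T : ℝ) (V : ℝ → Coef),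
  Lac ν₀ φ → 0 < T → Sol (fun k => φ (nsq k)) T V → V 0 = dat → T ≤ T₀

/-- The main theorem. -/
def S_MAINV : Prop := ∃ ν₀ T₀ : ℝ, 0 < ν₀ ∧ 0 < T₀ ∧ ∀ (a : ℝ) (φ : ℤ → ℝ), 0 < a →
  Lac (ν₀ * a) φ → ∃ (T : ℝ) (V : ℝ → Coef), 0 < T ∧ T ≤ T₀ / a ∧
    Sol (fun k => φ (nsq k)) T V ∧ (∀ k j, V 0 k j = (a : ℂ) * dat k j) ∧
    -- uniqueness, and `T` is the maximal time of existence
    (∀ (T' : ℝ) (W : ℝ → Coef), 0 < T' → Sol (fun k => φ (nsq k)) T' W → W 0 = V 0 →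
      T' ≤ T ∧ ∀ t ∈ Ico 0 T', W t = V t) ∧
    -- the energy identity
    (∀ t ∈ Ico 0 T, HasDerivWithinAt (fun s => energy (V s))
      (-(2 * ∑' k, φ (nsq k) * sq (V t k))) (Ico 0 T) t) ∧
    -- blow-up
    ∀ M : ℝ, ∃ t ∈ Ico 0 T, M < hE 3 (V t)

end Pool.Agent.Y5.V
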