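import Pool.Agent.Y96.VL.XN1
import Pool.Agent.Y5.V.Asm2

/-! The equations of the amplitudes of the chain with damping. -/

open Set Filter Topology
open scoped ComplexConjugate

set_option autoImplicit false

namespace Pool.Agent.Y5.V

open Pool.Agent.Y6.M (Z3 C3 Coef dt kc cj nsq len adv leray IsField energy)
open Pool.Agent.Y5.D (pair bil vec OT Rap)
open Pool.Agent.Y6.K (Em Ac cvf Chain)
open Pool.Agent.Y302.Trunc (Lev rho)
open Pool.Agent.Y96.VL.XN1 (xc_eq value rr_summable em_off em_tan)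

theorem t_XNG : S_XNG := by
  intro hLEV φ T V hsol hSy n t ht
  obtain ⟨hot, hr, hV, -, -, hlac⟩ := hLEV (V t) (hsol.field t ht) (hSy t ht)
  have hk0 : ∀ k ∈ Lev 1 n, k ≠ 0 := by
    rintro k hk rfl
    exact (Pool.Agent.Y809.EK.t_CJ1.2.1 n).2.2 hk
  have hrho : ∀ k ∈ Lev 1 n, nsq k = rho 1 n := by
    intro k hk
    have e1 := (Pool.Agent.Y809.EK.t_CJ1.1 n k).1 hk
    rw [len_vec] at e1
    exact_mod_cast e1
  have hrhs : ∀ (k : Z3) (j : Fin 3), (Complex.I * rhs (fun k => φ (nsq k)) (V t) k j).re =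
      (Complex.I * rhs (fun _ => 0) (V t) k j).re - φ (nsq k) * (Complex.I * V t k j).re := by
    intro k j
    have e1 : Complex.I * rhs (fun k => φ (nsq k)) (V t) k j =
        Complex.I * rhs (fun _ => 0) (V t) k j -
          ((φ (nsq k) : ℝ) : ℂ) * (Complex.I * V t k j) := by
      unfold rhs
      push_cast
      ring
    rw [e1, Complex.sub_re, Complex.re_ofReal_mul]
  have hval : bil (wOf (V t)) (wOf (V t)) (Em n) - φ (rho 1 n) * xc (V t) n =
      ∑ k ∈ Lev 1 n, ∑ j, (Complex.I * rhs (fun k => φ (nsq k)) (V t) k j).re * Em n k j := by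
    rw [Pool.Agent.Y96.VL.Bil.bil_sum (wOf (V t)) (wOf (V t)) (Em n) (Lev 1 n) (em_off n)
      (fun k _ => rr_summable hr k _), Finset.mul_sum, xc_eq, Finset.mul_sum,
      ← Finset.sum_sub_distrib]
    refine Finset.sum_congr rfl fun k hk => ?_
    rw [← value hot hr hV (fun _ => 0) k rfl (Em n k) (em_tan n k), Finset.mul_sum,
      ← Finset.sum_sub_distrib]
    refine Finset.sum_congr rfl fun j _ => ?_
    rw [hrhs, hrho k hk]
    ring
  rw [hval]
  have hfun : (fun s => xc (V s) n) =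
      fun s => ∑ k ∈ Lev 1 n, ∑ j, (Complex.I * V s k j).re * Em n k j := by
    ext s
    exact xc_eq (V s) n
  rw [hfun]
  refine HasDerivWithinAt.fun_sum fun k hk => ?_
  refine HasDerivWithinAt.fun_sum fun j _ => ?_
  have h1 := (hsol.eqn k (hk0 k hk) j t ht).const_mul Complex.I
  have h2 := (Complex.reCLM.hasFDerivAt (x := Complex.I * V t k j)).comp_hasDerivWithinAt t h1
  exact h2.mul_const _

end Pool.Agent.Y5.V
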